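import Mathlib

/-!
# Proximal pairs, hyperspaces and fuzzy sets: definitions
-/

open Filter Topology TopologicalSpace

namespace Pool.Agent.R247.DP

/-- `(y, z)` is a proximal pair of the self-map `g` for the distance `ρ`:
`liminf ρ (g^n y) (g^n z) = 0`. -/
def Proximal {Y : Type} (ρ : Y → Y → ℝ) (g : Y → Y) (y z : Y) : Prop :=
  ∀ δ > 0, ∃ᶠ n in atTop, ρ (g^[n] y) (g^[n] z) < δ

/-- The set of proximal pairs is dense in `Y × Y`, for the maximum of the distances. -/
def DenseProximal {Y : Type} (ρ : Y → Y → ℝ) (g : Y → Y) : Prop :=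
  ∀ y z : Y, ∀ ε > 0, ∃ y' z' : Y, ρ y y' < ε ∧ ρ z z' < ε ∧ Proximal ρ g y' z'

/-- Hausdorff distance of nonempty compact sets. -/
noncomputable def dH {X : Type} [MetricSpace X] (K L : NonemptyCompacts X) : ℝ :=
  Metric.hausdorffDist (K : Set X) (L : Set X)

/-- The hyperextension `K ↦ f(K)`. -/
noncomputable def hyper {X : Type} [MetricSpace X] (f : X → X) (hf : Continuous f) :
    NonemptyCompacts X → NonemptyCompacts X :=
  fun K => K.map f hf

/-- Normal fuzzy sets: upper semicontinuous `u : X → [0, 1]` which take the value `1` and have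
compact support. -/
structure FuzzySet (X : Type) [MetricSpace X] where
  toFun : X → ℝ
  nonneg : ∀ x, 0 ≤ toFun x
  le_one : ∀ x, toFun x ≤ 1
  usc : UpperSemicontinuous toFun
  normal : ∃ x, toFun x = 1
  supp : IsCompact (closure {x | 0 < toFun x})

/-- The endograph `{(x, t) : 0 ≤ t ≤ u(x)}`. -/
def endo {X : Type} (u : X → ℝ) : Set (X × ℝ) := {p | 0 ≤ p.2 ∧ p.2 ≤ u p.1}

/-- The endograph distance: the Hausdorff distance of the endographs, in `X × ℝ` with the maximum
metric. -/
noncomputable def dE {X : Type} [MetricSpace X] (u v : FuzzySet X) : ℝ :=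
  Metric.hausdorffDist (endo u.toFun) (endo v.toFun)

/-- Zadeh's extension `f̂(u)(y) = sup {u(x) : f(x) = y}` (with `sup ∅ = 0`). -/
noncomputable def zadehFun {X : Type} (f : X → X) (u : X → ℝ) (y : X) : ℝ :=
  sSup (u '' (f ⁻¹' {y}))

section

variable {X : Type} [MetricSpace X] (f : X → X) (hf : Continuous f) (u : FuzzySet X)

theorem zadeh_bdd (y : X) : BddAbove (u.toFun '' (f ⁻¹' {y})) :=
  ⟨1, by rintro _ ⟨x, -, rfl⟩; exact u.le_one x⟩

theorem zadeh_nonneg (y : X) : 0 ≤ zadehFun f u.toFun y :=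
  Real.sSup_nonneg (by rintro _ ⟨x, -, rfl⟩; exact u.nonneg x)

theorem zadeh_le_one (y : X) : zadehFun f u.toFun y ≤ 1 :=
  Real.sSup_le (by rintro _ ⟨x, -, rfl⟩; exact u.le_one x) zero_le_one

theorem le_zadeh (x : X) : u.toFun x ≤ zadehFun f u.toFun (f x) :=
  le_csSup (zadeh_bdd f u _) ⟨x, rfl, rfl⟩

include hf in
theorem zadeh_attained {y : X} (h : 0 < zadehFun f u.toFun y) :
    ∃ x, f x = y ∧ u.toFun x = zadehFun f u.toFun y := by
  -- the fibre inside the support
  have hne : (u.toFun '' (f ⁻¹' {y})).Nonempty := by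
    by_contra hc
    rw [Set.not_nonempty_iff_eq_empty] at hc
    unfold zadehFun at h
    rw [hc, Real.sSup_empty] at h
    exact lt_irrefl _ h
  obtain ⟨_, ⟨x0, hx0, rfl⟩, hx0'⟩ := exists_lt_of_lt_csSup hne h
  let K : Set X := closure {x | 0 < u.toFun x} ∩ f ⁻¹' {y}
  have hK : IsCompact K := u.supp.inter_right (isClosed_singleton.preimage hf)
  have hKne : K.Nonempty := ⟨x0, subset_closure hx0', hx0⟩
  obtain ⟨a, haK, ha⟩ := (u.usc.upperSemicontinuousOn K).exists_isMaxOn hKne hK
  refine ⟨a, haK.2, le_antisymm ?_ ?_⟩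
  · have := le_zadeh f u a
    rwa [show f a = y from haK.2] at this
  · apply csSup_le hne
    rintro _ ⟨x, hx, rfl⟩
    by_cases hxp : 0 < u.toFun x
    · exact ha (show x ∈ K from ⟨subset_closure hxp, hx⟩)
    · exact (not_lt.1 hxp).trans (u.nonneg a)

include hf in
theorem zadeh_usc : UpperSemicontinuous (zadehFun f u.toFun) := by
  rw [upperSemicontinuous_iff_isClosed_preimage]
  intro a
  by_cases ha : a ≤ 0
  · have : zadehFun f u.toFun ⁻¹' Set.Ici a = Set.univ := by
      ext y; simp only [Set.mem_preimage, Set.mem_Ici, Set.mem_univ, iff_true]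
      exact ha.trans (zadeh_nonneg f u y)
    rw [this]; exact isClosed_univ
  · push Not at ha
    have : zadehFun f u.toFun ⁻¹' Set.Ici a = f '' (u.toFun ⁻¹' Set.Ici a) := by
      ext y
      simp only [Set.mem_preimage, Set.mem_Ici, Set.mem_image]
      constructor
      · intro h
        obtain ⟨x, hx, hx'⟩ := zadeh_attained f hf u (ha.trans_le h)
        exact ⟨x, by rw [hx']; exact h, hx⟩
      · rintro ⟨x, hx, rfl⟩
        exact hx.trans (le_zadeh f u x)
    rw [this]
    have hc : IsClosed (u.toFun ⁻¹' Set.Ici a) := u.usc.isClosed_preimage a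
    have hK : IsCompact (u.toFun ⁻¹' Set.Ici a) :=
      u.supp.of_isClosed_subset hc (fun x hx => subset_closure (ha.trans_le hx))
    exact (hK.image hf).isClosed

include hf in
theorem zadeh_supp : IsCompact (closure {y | 0 < zadehFun f u.toFun y}) := by
  have h1 : IsCompact (f '' closure {x | 0 < u.toFun x}) := u.supp.image hf
  refine h1.of_isClosed_subset isClosed_closure ?_
  apply closure_minimal _ h1.isClosed
  intro y hy
  obtain ⟨x, hx, hx'⟩ := zadeh_attained f hf u hy
  exact ⟨x, subset_closure (by show 0 < u.toFun x; rw [hx']; exact hy), hx⟩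

end

/-- Zadeh's extension as a self-map of the set of normal fuzzy sets. -/
noncomputable def zadeh {X : Type} [MetricSpace X] (f : X → X) (hf : Continuous f) :
    FuzzySet X → FuzzySet X := fun u =>
  { toFun := zadehFun f u.toFun
    nonneg := zadeh_nonneg f u
    le_one := zadeh_le_one f u
    usc := zadeh_usc f hf u
    normal := by
      obtain ⟨x, hx⟩ := u.normal
      exact ⟨f x, le_antisymm (zadeh_le_one f u _) (hx ▸ le_zadeh f u x)⟩
    supp := zadeh_supp f hf u }

end Pool.Agent.R247.DP
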