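import Pool.Agent.R247.DP.Val
import Pool.Agent.R247.DP.Defs

/-!
# The fuzzy system has a dense proximal relation
-/

open Filter Topology TopologicalSpace

namespace Pool.Agent.R247.DP

section general

variable {X : Type} [MetricSpace X] (f : X → X) (hf : Continuous f)

theorem le_iter (n : ℕ) (u : FuzzySet X) (x : X) :
    u.toFun x ≤ ((zadeh f hf)^[n] u).toFun (f^[n] x) := by
  induction n generalizing u x with
  | zero => exact le_rfl
  | succ n ih =>
    rw [Function.iterate_succ_apply, Function.iterate_succ_apply]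
    exact (le_zadeh f u x).trans (ih (zadeh f hf u) (f x))

theorem iter_attained (n : ℕ) (u : FuzzySet X) (y : X)
    (h : 0 < ((zadeh f hf)^[n] u).toFun y) :
    ∃ x, f^[n] x = y ∧ u.toFun x = ((zadeh f hf)^[n] u).toFun y := by
  induction n generalizing u y with
  | zero => exact ⟨y, rfl, rfl⟩
  | succ n ih =>
    rw [Function.iterate_succ_apply] at h ⊢
    obtain ⟨x', hx', hv'⟩ := ih (zadeh f hf u) y h
    have hpos : 0 < zadehFun f u.toFun x' := by
      have : (zadeh f hf u).toFun x' = zadehFun f u.toFun x' := rfl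
      rw [← this, hv']; exact h
    obtain ⟨x, hx, hv⟩ := zadeh_attained f hf u hpos
    refine ⟨x, ?_, ?_⟩
    · rw [Function.iterate_succ_apply, hx]; exact hx'
    · rw [hv, ← hv']; rfl

/-- finite approximation of a fuzzy set -/
theorem approx (u : FuzzySet X) {ε : ℝ} (hε : 0 < ε) :
    ∃ G : Finset (X × ℝ), (∀ g ∈ G, 0 ≤ g.2 ∧ g.2 ≤ u.toFun g.1) ∧
      ∀ x t, t ≤ u.toFun x → t ≤ ε ∨ ∃ g ∈ G, dist x g.1 < ε ∧ t ≤ g.2 + ε := by
  classical
  let K : Set X := closure {x | 0 < u.toFun x}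
  let H : Set (X × ℝ) := (K ×ˢ Set.Icc (0 : ℝ) 1) ∩ {p : X × ℝ | p.2 ≤ u.toFun p.1}
  have hH : IsCompact H :=
    (u.supp.prod isCompact_Icc).inter_right (upperSemicontinuous_iff_IsClosed_hypograph.1 u.usc)
  obtain ⟨t, htH, htf, hcov⟩ := hH.finite_cover_balls hε
  refine ⟨htf.toFinset, ?_, ?_⟩
  · intro g hg
    have := htH (htf.mem_toFinset.1 hg)
    exact ⟨this.1.2.1, this.2⟩
  · intro x s hs
    by_cases h : s ≤ ε
    · exact Or.inl h
    · right
      push Not at h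
      have hmem : (x, s) ∈ H := by
        refine ⟨⟨subset_closure ?_, ?_, ?_⟩, hs⟩
        · show 0 < u.toFun x
          linarith
        · show 0 ≤ s
          linarith
        · show s ≤ 1
          exact hs.trans (u.le_one x)
      have := hcov hmem
      rw [Set.mem_iUnion₂] at this
      obtain ⟨g, hg, hd⟩ := this
      rw [Metric.mem_ball, Prod.dist_eq, max_lt_iff] at hd
      refine ⟨g, htf.mem_toFinset.2 hg, hd.1, ?_⟩
      have := hd.2
      rw [Real.dist_eq, abs_lt] at this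
      linarith [this.2]

end general

/-- the fuzzy set function of a finite family -/
noncomputable def fz (P : Finset (Pt × Pt × ℝ)) (R : ℕ) (ρ : Bool) (p : Pt) : ℝ :=
  sSup {x | x = 0 ∨ ∃ l ∈ P, ∃ τ, pt R ρ l.1 l.2.1 τ = p ∧ x = l.2.2 * val τ}

section

variable (P : Finset (Pt × Pt × ℝ)) (R : ℕ) (ρ : Bool)

theorem fz_finite (p : Pt) :
    {x | x = 0 ∨ ∃ l ∈ P, ∃ τ, pt R ρ l.1 l.2.1 τ = p ∧ x = l.2.2 * val τ}.Finite := by
  have : {x | x = 0 ∨ ∃ l ∈ P, ∃ τ, pt R ρ l.1 l.2.1 τ = p ∧ x = l.2.2 * val τ} ⊆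
      {0} ∪ ⋃ l ∈ P, {x | ∃ τ, pt R ρ l.1 l.2.1 τ = p ∧ x = l.2.2 * val τ} := by
    rintro x (h | ⟨l, hl, h⟩)
    · exact Or.inl h
    · exact Or.inr (Set.mem_biUnion hl h)
  refine Set.Finite.subset ?_ this
  refine (Set.finite_singleton _).union ?_
  apply Set.Finite.biUnion P.finite_toSet
  intro l _
  apply Set.Subsingleton.finite
  rintro x ⟨τ, h1, rfl⟩ y ⟨τ', h2, rfl⟩
  have := pt_injective R ρ l.1 l.2.1 (h1.trans h2.symm)
  rw [this]

theorem fz_mem (p : Pt) : fz P R ρ p = 0 ∨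
    ∃ l ∈ P, ∃ τ, pt R ρ l.1 l.2.1 τ = p ∧ fz P R ρ p = l.2.2 * val τ := by
  have := Set.Nonempty.csSup_mem (s := {x | x = 0 ∨ ∃ l ∈ P, ∃ τ, pt R ρ l.1 l.2.1 τ = p ∧
    x = l.2.2 * val τ}) ⟨0, Or.inl rfl⟩ (fz_finite P R ρ p)
  exact this

theorem fz_nonneg (p : Pt) : 0 ≤ fz P R ρ p :=
  le_csSup (fz_finite P R ρ p).bddAbove (Or.inl rfl)

theorem le_fz {l : Pt × Pt × ℝ} (hl : l ∈ P) (τ : ℕ → Bool × Bool) :
    l.2.2 * val τ ≤ fz P R ρ (pt R ρ l.1 l.2.1 τ) :=
  le_csSup (fz_finite P R ρ _).bddAbove (Or.inr ⟨l, hl, τ, rfl, rfl⟩)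

variable (hP : ∀ l ∈ P, 0 ≤ l.2.2 ∧ l.2.2 ≤ 1) (hB : ∀ l ∈ P, l.1.nd.birth < R)

include hP in
theorem fz_le_one (p : Pt) : fz P R ρ p ≤ 1 := by
  rcases fz_mem P R ρ p with h | ⟨l, hl, τ, -, h⟩
  · rw [h]; exact zero_le_one
  · rw [h]
    exact mul_le_one₀ (hP l hl).2 (val_nonneg τ) (val_le_one τ)

include hP hB in
theorem fz_usc : UpperSemicontinuous (fz P R ρ) := by
  rw [upperSemicontinuous_iff_isClosed_preimage]
  intro a
  by_cases ha : a ≤ 0
  · have : fz P R ρ ⁻¹' Set.Ici a = Set.univ := by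
      ext y; simp only [Set.mem_preimage, Set.mem_Ici, Set.mem_univ, iff_true]
      exact ha.trans (fz_nonneg P R ρ y)
    rw [this]; exact isClosed_univ
  · push Not at ha
    have : fz P R ρ ⁻¹' Set.Ici a =
        ⋃ l ∈ P, pt R ρ l.1 l.2.1 '' {τ | a ≤ l.2.2 * val τ} := by
      ext y
      simp only [Set.mem_preimage, Set.mem_Ici, Set.mem_iUnion, Set.mem_image, exists_prop]
      constructor
      · intro h
        rcases fz_mem P R ρ y with h0 | ⟨l, hl, τ, h1, h2⟩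
        · rw [h0] at h; linarith
        · exact ⟨l, hl, τ, by rw [h2] at h; exact h, h1⟩
      · rintro ⟨l, hl, τ, h1, rfl⟩
        exact le_trans h1 (le_fz P R ρ hl τ)
    rw [this]
    apply Set.Finite.isClosed_biUnion P.finite_toSet
    intro l hl
    have h1 : IsCompact {τ : ℕ → Bool × Bool | a ≤ l.2.2 * val τ} :=
      (isClosed_val _ _ (hP l hl).1 ha).isCompact
    exact (h1.image (continuous_pt R ρ l.1 l.2.1 (hB l hl))).isClosed

include hB in
theorem fz_supp : IsCompact (closure {p | 0 < fz P R ρ p}) := by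
  have h1 : IsCompact (⋃ l ∈ P, Set.range (pt R ρ l.1 l.2.1)) := by
    apply P.finite_toSet.isCompact_biUnion
    intro l hl
    exact isCompact_range (continuous_pt R ρ l.1 l.2.1 (hB l hl))
  refine h1.of_isClosed_subset isClosed_closure ?_
  apply closure_minimal _ h1.isClosed
  intro y hy
  have hy' : 0 < fz P R ρ y := hy
  rcases fz_mem P R ρ y with h0 | ⟨l, hl, τ, h2, -⟩
  · rw [h0] at hy'; exact absurd hy' (lt_irrefl _)
  · exact Set.mem_biUnion hl ⟨τ, h2⟩

end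

/-- the fuzzy set of a finite family -/
noncomputable def fzset (P : Finset (Pt × Pt × ℝ)) (R : ℕ) (ρ : Bool)
    (hP : ∀ l ∈ P, 0 ≤ l.2.2 ∧ l.2.2 ≤ 1) (hB : ∀ l ∈ P, l.1.nd.birth < R)
    (hT : ∃ l ∈ P, l.2.2 = 1) : FuzzySet Pt where
  toFun := fz P R ρ
  nonneg := fz_nonneg P R ρ
  le_one := fz_le_one P R ρ hP
  usc := fz_usc P R ρ hP hB
  normal := by
    obtain ⟨l, hl, h1⟩ := hT
    refine ⟨pt R ρ l.1 l.2.1 top, le_antisymm (fz_le_one P R ρ hP _) ?_⟩
    have := le_fz P R ρ hl top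
    rwa [h1, val_top, mul_one] at this
  supp := fz_supp P R ρ hB

/-- the fuzzy set of a family is close to the given one -/
theorem dE_fzset (u : FuzzySet Pt) (P : Finset (Pt × Pt × ℝ)) (R : ℕ) (ρ : Bool)
    (hP : ∀ l ∈ P, 0 ≤ l.2.2 ∧ l.2.2 ≤ 1) (hB : ∀ l ∈ P, l.1.nd.birth < R)
    (hT : ∃ l ∈ P, l.2.2 = 1) (hb : ∀ l ∈ P, blk l.1.lv < R)
    {ε : ℝ} (hε : 0 < ε) (hR : (1 / 2 : ℝ) ^ R ≤ ε) (hPu : ∀ l ∈ P, l.2.2 ≤ u.toFun l.1)
    (hap : ∀ x t, t ≤ u.toFun x → t ≤ ε ∨ ∃ l ∈ P, dist x l.1 < ε ∧ t ≤ l.2.2 + ε) :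
    dE u (fzset P R ρ hP hB hT) ≤ 2 * ε := by
  unfold dE
  apply Metric.hausdorffDist_le_of_mem_dist (by positivity)
  · rintro ⟨x, t⟩ ⟨ht0, htu⟩
    simp only at ht0 htu
    rcases hap x t htu with h | ⟨l, hl, hd, ht⟩
    · refine ⟨(x, 0), ⟨le_rfl, fz_nonneg P R ρ x⟩, ?_⟩
      rw [Prod.dist_eq]
      simp only [dist_self, Real.dist_eq, sub_zero]
      rw [abs_of_nonneg ht0]
      exact max_le (by positivity) (by linarith)
    · refine ⟨(pt R ρ l.1 l.2.1 top, min t l.2.2), ⟨le_min ht0 (hP l hl).1, ?_⟩, ?_⟩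
      · have := le_fz P R ρ hl top
        rw [val_top, mul_one] at this
        exact (min_le_right _ _).trans this
      · rw [Prod.dist_eq]
        apply max_le
        · have h1 := dist_pt R ρ l.1 l.2.1 top (hB l hl) (hb l hl)
          have h2 := dist_triangle x l.1 (pt R ρ l.1 l.2.1 top)
          show dist x (pt R ρ l.1 l.2.1 top) ≤ 2 * ε
          linarith
        · show dist t (min t l.2.2) ≤ 2 * ε
          rw [Real.dist_eq, abs_of_nonneg (by linarith [min_le_left t l.2.2])]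
          rcases le_total t l.2.2 with h | h
          · rw [min_eq_left h]; linarith
          · rw [min_eq_right h]; linarith
  · rintro ⟨p, t⟩ ⟨ht0, htu⟩
    simp only at ht0 htu
    have htu' : t ≤ fz P R ρ p := htu
    rcases fz_mem P R ρ p with h0 | ⟨l, hl, τ, h1, h2⟩
    · refine ⟨(p, t), ⟨ht0, ?_⟩, ?_⟩
      · show t ≤ u.toFun p
        rw [h0] at htu'
        exact htu'.trans (u.nonneg p)
      · rw [dist_self]; positivity
    · refine ⟨(l.1, t), ⟨ht0, ?_⟩, ?_⟩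
      · show t ≤ u.toFun l.1
        rw [h2] at htu'
        refine htu'.trans (le_trans ?_ (hPu l hl))
        exact mul_le_of_le_one_right (hP l hl).1 (val_le_one τ)
      · rw [Prod.dist_eq]
        apply max_le
        · show dist p l.1 ≤ 2 * ε
          rw [← h1, dist_comm]
          have := dist_pt R ρ l.1 l.2.1 τ (hB l hl) (hb l hl)
          linarith
        · show dist t t ≤ 2 * ε
          rw [dist_self]; positivity

/-- one half of the comparison of the images at a good time -/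
theorem half_compare (P P' : Finset (Pt × Pt × ℝ)) (R : ℕ) (ρ : Bool)
    (hP : ∀ l ∈ P, 0 ≤ l.2.2 ∧ l.2.2 ≤ 1) (hB : ∀ l ∈ P, l.1.nd.birth < R)
    (hT : ∃ l ∈ P, l.2.2 = 1)
    (hP' : ∀ l ∈ P', 0 ≤ l.2.2 ∧ l.2.2 ≤ 1) (hB' : ∀ l ∈ P', l.1.nd.birth < R)
    (hT' : ∃ l ∈ P', l.2.2 = 1)
    (hsw : ∀ l ∈ P, (l.2.1, l.1, l.2.2) ∈ P') {k : ℕ} (hk : R ≤ k)
    (hlv : ∀ l ∈ P, l.1.lv < 2 ^ k ∧ l.2.1.lv < 2 ^ k) (y : Pt) (t : ℝ) (ht0 : 0 ≤ t)
    (ht : t ≤ ((zadeh fmap continuous_fmap)^[2 ^ k - 1] (fzset P R ρ hP hB hT)).toFun y) :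
    ∃ q ∈ endo ((zadeh fmap continuous_fmap)^[2 ^ k - 1]
      (fzset P' R (!ρ) hP' hB' hT')).toFun, dist (y, t) q ≤ 2 * (1 / 2) ^ (k - R) := by
  set n := 2 ^ k - 1 with hn
  set u' := fzset P R ρ hP hB hT with hu'
  set v' := fzset P' R (!ρ) hP' hB' hT' with hv'
  have hpos : (0 : ℝ) < (1 / 2) ^ (k - R) := by positivity
  by_cases hsmall : t ≤ (1 / 2) ^ (k - R)
  · refine ⟨(y, 0), ⟨le_rfl, ((zadeh fmap continuous_fmap)^[n] v').nonneg y⟩, ?_⟩
    rw [Prod.dist_eq]
    simp only [dist_self, Real.dist_eq, sub_zero]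
    rw [abs_of_nonneg ht0]
    exact max_le (by positivity) (by linarith)
  · push Not at hsmall
    have hpy : 0 < ((zadeh fmap continuous_fmap)^[n] u').toFun y := by linarith
    obtain ⟨x, hx, hv⟩ := iter_attained fmap continuous_fmap n u' y hpy
    rw [← hv] at ht
    have hfx : u'.toFun x = fz P R ρ x := rfl
    rcases fz_mem P R ρ x with h0 | ⟨l, hl, τ, h1, h2⟩
    · rw [hfx, h0] at ht; linarith
    · rw [hfx, h2] at ht
      have hc1 := (hP l hl).1
      have hc2 := (hP l hl).2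
      have hl' := hsw l hl
      have htv : t ≤ val τ := ht.trans (mul_le_of_le_one_left (val_nonneg τ) hc2)
      rcases partner l.1.nd l.2.1.nd ρ τ R k (hB l hl) (hB' _ hl') hk with h3 | ⟨τ', hcode, h4⟩
      · linarith
      · set q := pt R (!ρ) l.2.1 l.1 τ' with hq
        have hvq : l.2.2 * val τ' ≤ v'.toFun q := le_fz P' R (!ρ) hl' τ'
        have hvq' := hvq.trans (le_iter fmap continuous_fmap n v' q)
        refine ⟨(fmap^[n] q, min t (l.2.2 * val τ')), ⟨?_, ?_⟩, ?_⟩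
        · exact le_min ht0 (mul_nonneg hc1 (val_nonneg _))
        · exact (min_le_right _ _).trans hvq'
        · rw [Prod.dist_eq]
          apply max_le
          · show dist y (fmap^[n] q) ≤ 2 * (1 / 2) ^ (k - R)
            rw [← hx, ← h1, iter_fmap, iter_fmap]
            have hb1 : ∀ N, N < 2 ^ k → blk (N + n) = k := by
              intro N hN
              unfold blk
              have hp : 1 ≤ 2 ^ k := Nat.one_le_two_pow
              rw [show N + n + 1 = N + 2 ^ k by omega]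
              rw [Nat.log_eq_iff (Or.inr ⟨by norm_num, by omega⟩)]
              constructor
              · omega
              · rw [pow_succ]; omega
            have hcls : cls ⟨(pt R ρ l.1 l.2.1 τ).nd, (pt R ρ l.1 l.2.1 τ).lv + n⟩ =
                cls ⟨q.nd, q.lv + n⟩ := by
              unfold cls
              simp only
              rw [show (pt R ρ l.1 l.2.1 τ).lv = l.1.lv from rfl, show q.lv = l.2.1.lv from rfl,
                hb1 _ (hlv l hl).1, hb1 _ (hlv l hl).2]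
              rw [Prod.mk.injEq]
              exact ⟨rfl, hcode⟩
            have h5 := dist_le_of_cls hcls
            simp only at h5
            rw [show (pt R ρ l.1 l.2.1 τ).lv = l.1.lv from rfl, hb1 _ (hlv l hl).1] at h5
            refine h5.trans ?_
            have h6 : (1 / 2 : ℝ) ^ k ≤ (1 / 2) ^ (k - R) :=
              pow_le_pow_of_le_one (by norm_num) (by norm_num) (Nat.sub_le _ _)
            linarith
          · show dist t (min t (l.2.2 * val τ')) ≤ 2 * (1 / 2) ^ (k - R)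
            rw [Real.dist_eq, abs_of_nonneg (by linarith [min_le_left t (l.2.2 * val τ')])]
            rcases le_total t (l.2.2 * val τ') with h | h
            · rw [min_eq_left h]; linarith
            · rw [min_eq_right h]
              have h7 : l.2.2 * val τ ≤ l.2.2 * (val τ' + 2 * (1 / 2) ^ (k - R)) :=
                mul_le_mul_of_nonneg_left h4 hc1
              have h8 : l.2.2 * (2 * (1 / 2) ^ (k - R)) ≤ 2 * (1 / 2) ^ (k - R) :=
                mul_le_of_le_one_left (by positivity) hc2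
              rw [mul_add] at h7
              linarith

theorem dense_fuzzy : DenseProximal dE (zadeh fmap continuous_fmap) := by
  classical
  intro u v ε hε
  set ε' := ε / 3 with hε'
  have hε'0 : 0 < ε' := by positivity
  obtain ⟨Gu, hGu1, hGu2⟩ := approx u hε'0
  obtain ⟨Gv, hGv1, hGv2⟩ := approx v hε'0
  obtain ⟨x0, hx0⟩ := u.normal
  obtain ⟨y0, hy0⟩ := v.normal
  let P : Finset (Pt × Pt × ℝ) := insert (x0, y0, 1)
    (Gu.image (fun g => (g.1, y0, g.2)) ∪ Gv.image (fun g => (x0, g.1, g.2)))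
  let P' : Finset (Pt × Pt × ℝ) := P.image (fun l => (l.2.1, l.1, l.2.2))
  have hmemP : ∀ l ∈ P, l = (x0, y0, 1) ∨ (∃ g ∈ Gu, l = (g.1, y0, g.2)) ∨
      (∃ g ∈ Gv, l = (x0, g.1, g.2)) := by
    intro l hl
    simp only [P, Finset.mem_insert, Finset.mem_union, Finset.mem_image] at hl
    rcases hl with h | ⟨g, hg, h⟩ | ⟨g, hg, h⟩
    · exact Or.inl h
    · exact Or.inr (Or.inl ⟨g, hg, h.symm⟩)
    · exact Or.inr (Or.inr ⟨g, hg, h.symm⟩)
  have hPu : ∀ l ∈ P, 0 ≤ l.2.2 ∧ l.2.2 ≤ u.toFun l.1 ∧ l.2.2 ≤ v.toFun l.2.1 := by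
    intro l hl
    rcases hmemP l hl with rfl | ⟨g, hg, rfl⟩ | ⟨g, hg, rfl⟩
    · exact ⟨zero_le_one, hx0.ge, hy0.ge⟩
    · refine ⟨(hGu1 g hg).1, (hGu1 g hg).2, ?_⟩
      show g.2 ≤ v.toFun y0
      rw [hy0]; exact (hGu1 g hg).2.trans (u.le_one _)
    · refine ⟨(hGv1 g hg).1, ?_, (hGv1 g hg).2⟩
      show g.2 ≤ u.toFun x0
      rw [hx0]; exact (hGv1 g hg).2.trans (v.le_one _)
  have hP1 : ∀ l ∈ P, 0 ≤ l.2.2 ∧ l.2.2 ≤ 1 := fun l hl =>
    ⟨(hPu l hl).1, (hPu l hl).2.1.trans (u.le_one _)⟩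
  have hP1' : ∀ l ∈ P', 0 ≤ l.2.2 ∧ l.2.2 ≤ 1 := by
    intro l hl
    obtain ⟨l', hl', rfl⟩ := Finset.mem_image.1 hl
    exact hP1 l' hl'
  have hTop : ∃ l ∈ P, l.2.2 = 1 := ⟨(x0, y0, 1), Finset.mem_insert_self _ _, rfl⟩
  have hTop' : ∃ l ∈ P', l.2.2 = 1 :=
    ⟨(y0, x0, 1), Finset.mem_image.2 ⟨(x0, y0, 1), Finset.mem_insert_self _ _, rfl⟩, rfl⟩
  -- choice of `R`
  obtain ⟨j0, hj0⟩ := exists_pow_lt_of_lt_one hε'0 (show (1 / 2 : ℝ) < 1 by norm_num)
  let w : Pt × Pt × ℝ → ℕ := fun l =>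
    l.1.nd.birth + l.2.1.nd.birth + blk l.1.lv + blk l.2.1.lv + l.1.lv + l.2.1.lv
  set W := P.sup w with hW
  have hWl : ∀ l ∈ P, w l ≤ W := fun l hl => Finset.le_sup hl
  set R := W + 1 + j0 with hR
  have hB : ∀ l ∈ P, l.1.nd.birth < R := by
    intro l hl; have := hWl l hl; simp only [w] at this; omega
  have hB' : ∀ l ∈ P', l.1.nd.birth < R := by
    intro l hl
    obtain ⟨l', hl', rfl⟩ := Finset.mem_image.1 hl
    have := hWl l' hl'; simp only [w] at this; simp only; omega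
  have hb : ∀ l ∈ P, blk l.1.lv < R := by
    intro l hl; have := hWl l hl; simp only [w] at this; omega
  have hb' : ∀ l ∈ P', blk l.1.lv < R := by
    intro l hl
    obtain ⟨l', hl', rfl⟩ := Finset.mem_image.1 hl
    have := hWl l' hl'; simp only [w] at this; simp only; omega
  have hRε : (1 / 2 : ℝ) ^ R ≤ ε' :=
    (pow_le_pow_of_le_one (by norm_num) (by norm_num) (by omega)).trans hj0.le
  refine ⟨fzset P R false hP1 hB hTop, fzset P' R true hP1' hB' hTop', ?_, ?_, ?_⟩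
  · refine lt_of_le_of_lt (dE_fzset u P R false hP1 hB hTop hb hε'0 hRε
      (fun l hl => (hPu l hl).2.1) ?_) (by linarith)
    intro x t ht
    rcases hGu2 x t ht with h | ⟨g, hg, h1, h2⟩
    · exact Or.inl h
    · refine Or.inr ⟨(g.1, y0, g.2), ?_, h1, h2⟩
      exact Finset.mem_insert_of_mem (Finset.mem_union_left _ (Finset.mem_image.2 ⟨g, hg, rfl⟩))
  · refine lt_of_le_of_lt (dE_fzset v P' R true hP1' hB' hTop' hb' hε'0 hRε ?_ ?_) (by linarith)
    · intro l hl
      obtain ⟨l', hl', rfl⟩ := Finset.mem_image.1 hl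
      exact (hPu l' hl').2.2
    · intro x t ht
      rcases hGv2 x t ht with h | ⟨g, hg, h1, h2⟩
      · exact Or.inl h
      · refine Or.inr ⟨(g.1, x0, g.2), ?_, h1, h2⟩
        refine Finset.mem_image.2 ⟨(x0, g.1, g.2), ?_, rfl⟩
        exact Finset.mem_insert_of_mem (Finset.mem_union_right _
          (Finset.mem_image.2 ⟨g, hg, rfl⟩))
  · intro δ hδ
    rw [frequently_atTop]
    intro a
    obtain ⟨j, hj⟩ := exists_pow_lt_of_lt_one (show (0 : ℝ) < δ / 2 by positivity)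
      (show (1 / 2 : ℝ) < 1 by norm_num)
    set k := R + j + a + W with hk
    have hk1 : k < 2 ^ k := Nat.lt_two_pow_self
    refine ⟨2 ^ k - 1, by omega, ?_⟩
    have hsm : 2 * (1 / 2 : ℝ) ^ (k - R) < δ := by
      have : (1 / 2 : ℝ) ^ (k - R) ≤ (1 / 2) ^ j :=
        pow_le_pow_of_le_one (by norm_num) (by norm_num) (by omega)
      linarith
    refine lt_of_le_of_lt ?_ hsm
    have hlv : ∀ l ∈ P, l.1.lv < 2 ^ k ∧ l.2.1.lv < 2 ^ k := by
      intro l hl
      have := hWl l hl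
      simp only [w] at this
      constructor <;> omega
    unfold dE
    apply Metric.hausdorffDist_le_of_mem_dist (by positivity)
    · rintro ⟨y, t⟩ ⟨ht0, ht⟩
      exact half_compare P P' R false hP1 hB hTop hP1' hB' hTop'
        (fun l hl => Finset.mem_image.2 ⟨l, hl, rfl⟩) (by omega) hlv y t ht0 ht
    · rintro ⟨y, t⟩ ⟨ht0, ht⟩
      refine half_compare P' P R true hP1' hB' hTop' hP1 hB hTop ?_ (by omega) ?_ y t ht0 ht
      · intro l hl
        obtain ⟨l', hl', rfl⟩ := Finset.mem_image.1 hl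
        exact hl'
      · intro l hl
        obtain ⟨l', hl', rfl⟩ := Finset.mem_image.1 hl
        exact ⟨(hlv l' hl').2, (hlv l' hl').1⟩

end Pool.Agent.R247.DP
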