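import Pool.Agent.R247.DP.Space
import Pool.Agent.R247.DP.Defs

/-!
# The hyperspace system has no dense proximal relation
-/

open Filter Topology TopologicalSpace

namespace Pool.Agent.R247.DP

theorem hyper_iter {X : Type} [MetricSpace X] (f : X → X) (hf : Continuous f) (n : ℕ)
    (K : NonemptyCompacts X) : (((hyper f hf)^[n] K : NonemptyCompacts X) : Set X) =
      f^[n] '' (K : Set X) := by
  induction n generalizing K with
  | zero => simp
  | succ n ih =>
    rw [Function.iterate_succ_apply, ih]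
    unfold hyper
    rw [NonemptyCompacts.coe_map, ← Set.image_comp]
    rfl

theorem fin_edist {X : Type} [MetricSpace X] (K L : NonemptyCompacts X) :
    Metric.hausdorffEDist (K : Set X) (L : Set X) ≠ ⊤ :=
  Metric.hausdorffEDist_ne_top_of_nonempty_of_bounded K.nonempty L.nonempty
    K.isCompact.isBounded L.isCompact.isBounded

/-- the one point set of a root -/
noncomputable def rootSet (b : Bool) : NonemptyCompacts Pt :=
  ⟨⟨{⟨Nd.root b, 0⟩}, isCompact_singleton⟩, Set.singleton_nonempty _⟩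

theorem near_root {b : Bool} {K : NonemptyCompacts Pt} (h : dH (rootSet b) K < 1) :
    ∀ p ∈ (K : Set Pt), p.lv = 0 ∧ p.nd.ty = b := by
  intro p hp
  obtain ⟨q, hq, hd⟩ := Metric.exists_dist_lt_of_hausdorffDist_lt' hp h (fin_edist _ _)
  have hq' : q = ⟨Nd.root b, 0⟩ := hq
  subst hq'
  have hc := cls_eq_of_dist_lt hd
  unfold cls at hc
  have h1 : blk 0 = blk p.lv := congrArg Prod.fst hc
  have h0 : blk 0 = 0 := by simp [blk]
  have h2 : p.lv = 0 := by
    by_contra hne
    have : 1 ≤ blk p.lv := by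
      unfold blk
      exact Nat.log_pos (by norm_num) (by omega)
    omega
  refine ⟨h2, ?_⟩
  have h3 : (Nd.root b).code (blk 0) = p.nd.code (blk p.lv) := congrArg Prod.snd hc
  have h4 : p.nd.code (blk p.lv) = Sum.inl b := h3.symm
  exact (Nd.code_eq_inl h4).symm

theorem matched_of_dist {K L : NonemptyCompacts Pt} (hK : ∀ p ∈ (K : Set Pt), p.lv = 0)
    (hL : ∀ p ∈ (L : Set Pt), p.lv = 0) {n : ℕ}
    (h : dH ((hyper fmap continuous_fmap)^[n] K) ((hyper fmap continuous_fmap)^[n] L) < 1) :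
    Nd.Matched {x | (⟨x, 0⟩ : Pt) ∈ (K : Set Pt)} {x | (⟨x, 0⟩ : Pt) ∈ (L : Set Pt)} (blk n) := by
  unfold dH at h
  have hfin := fin_edist ((hyper fmap continuous_fmap)^[n] K) ((hyper fmap continuous_fmap)^[n] L)
  rw [hyper_iter, hyper_iter] at h hfin
  constructor
  · intro x hx
    have hx' : fmap^[n] (⟨x, 0⟩ : Pt) ∈ fmap^[n] '' (K : Set Pt) := ⟨_, hx, rfl⟩
    obtain ⟨y, ⟨q, hq, rfl⟩, hd⟩ := Metric.exists_dist_lt_of_hausdorffDist_lt hx' h hfin
    have hc := cls_eq_of_dist_lt hd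
    rw [iter_fmap, iter_fmap] at hc
    unfold cls at hc
    have hq0 := hL q hq
    have h1 := congrArg Prod.snd hc
    simp only [hq0, zero_add] at h1
    refine ⟨q.nd, ?_, h1⟩
    show (⟨q.nd, 0⟩ : Pt) ∈ (L : Set Pt)
    rw [← hq0]; exact hq
  · intro y hy
    have hy' : fmap^[n] (⟨y, 0⟩ : Pt) ∈ fmap^[n] '' (L : Set Pt) := ⟨_, hy, rfl⟩
    obtain ⟨x, ⟨q, hq, rfl⟩, hd⟩ := Metric.exists_dist_lt_of_hausdorffDist_lt' hy' h hfin
    have hc := cls_eq_of_dist_lt hd
    rw [iter_fmap, iter_fmap] at hc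
    unfold cls at hc
    have hq0 := hK q hq
    have h1 := congrArg Prod.snd hc
    simp only [hq0, zero_add] at h1
    refine ⟨q.nd, ?_, h1⟩
    show (⟨q.nd, 0⟩ : Pt) ∈ (K : Set Pt)
    rw [← hq0]; exact hq

theorem not_dense_hyper : ¬ DenseProximal dH (hyper fmap continuous_fmap) := by
  intro hD
  obtain ⟨K, L, hK, hL, hP⟩ := hD (rootSet false) (rootSet true) 1 one_pos
  have hK' := near_root hK
  have hL' := near_root hL
  set A : Set Nd := {x | (⟨x, 0⟩ : Pt) ∈ (K : Set Pt)} with hA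
  set B : Set Nd := {x | (⟨x, 0⟩ : Pt) ∈ (L : Set Pt)} with hB
  have htA : ∀ x ∈ A, x.ty = false := fun x hx => (hK' _ hx).2
  have htB : ∀ x ∈ B, x.ty = true := fun x hx => (hL' _ hx).2
  have hBne : B.Nonempty := by
    obtain ⟨p, hp⟩ := L.nonempty
    refine ⟨p.nd, ?_⟩
    show (⟨p.nd, 0⟩ : Pt) ∈ (L : Set Pt)
    rw [← (hL' p hp).1]; exact hp
  let S : Set ℕ := {k | Nd.Matched A B k}
  have hS : S.Infinite := by
    rw [Set.infinite_iff_exists_gt]
    intro a
    have h1 := hP 1 one_pos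
    rw [frequently_atTop] at h1
    obtain ⟨n, hn, hd⟩ := h1 (2 ^ (a + 1))
    refine ⟨blk n, ?_, ?_⟩
    · exact matched_of_dist (fun p hp => (hK' p hp).1) (fun p hp => (hL' p hp).1) hd
    · have : a + 1 ≤ blk n := by
        unfold blk
        rw [Nat.le_log_iff_pow_le (by norm_num) (by omega)]
        omega
      omega
  obtain ⟨z, b, hz, hsym⟩ := Nd.chain htA htB hBne hS (fun k hk => hk)
  obtain ⟨p, hp, φ, hφ, hlim⟩ := L.isCompact.tendsto_subseq (x := fun n => (⟨z n, 0⟩ : Pt))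
    (fun n => hz n)
  -- the symbol at time `b N`
  set N := p.nd.depth with hN
  rw [Metric.tendsto_atTop] at hlim
  obtain ⟨M, hM⟩ := hlim ((1 / 2) ^ (blk p.lv + (b N + 1) + 1)) (half_pow_pos _)
  set i := max M (N + 1) with hi
  have h1 := hM i (le_max_left _ _)
  rw [dist_comm] at h1
  obtain ⟨h2, h3⟩ := agree_of_dist h1.le
  have h4 := h3 (b N) (by omega)
  have h5 : N < φ i := by
    have := hφ.id_le i
    have h6 : N + 1 ≤ i := le_max_right _ _
    simp only [id] at this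
    omega
  obtain ⟨a, ha1, ha2⟩ := hsym N (φ i) h5
  have h6 : p.nd.sym (b N) = Sum.inr a := by rw [h4]; exact ha1
  have h7 := Nd.depth_lt_of_sym h6
  omega

end Pool.Agent.R247.DP
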