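import Pool.Agent.R247.DP.Step

/-!
# The metric space and the map; the hyperspace side
-/

open Filter Topology

namespace Pool.Agent.R247.DP

/-- points of the metric space: a node and a level -/
structure Pt where
  nd : Nd
  lv : ℕ

/-- block of a level -/
def blk (N : ℕ) : ℕ := Nat.log 2 (N + 1)

/-- class of a point -/
noncomputable def cls (p : Pt) : ℕ × Co := (blk p.lv, p.nd.code (blk p.lv))

/-- sequence of symbols of a point -/
noncomputable def emb (p : Pt) : ℕ → ℕ ⊕ Sy
  | 0 => Sum.inl p.lv
  | k + 1 => Sum.inr (p.nd.sym k)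

/-- first difference distance of sequences -/
noncomputable def sd {α : Type} (x y : ℕ → α) : ℝ := @dist _ PiNat.dist x y

theorem sd_self {α : Type} (x : ℕ → α) : sd x x = 0 := PiNat.dist_self x
theorem sd_comm {α : Type} (x y : ℕ → α) : sd x y = sd y x := PiNat.dist_comm x y
theorem sd_nonneg {α : Type} (x y : ℕ → α) : 0 ≤ sd x y := PiNat.dist_nonneg x y
theorem sd_le_one {α : Type} (x y : ℕ → α) : sd x y ≤ 1 := PiNat.dist_le_one x y
theorem sd_triangle {α : Type} (x y z : ℕ → α) : sd x z ≤ sd x y + sd y z :=
  PiNat.dist_triangle x y z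
theorem eq_of_sd {α : Type} {x y : ℕ → α} (h : sd x y = 0) : x = y :=
  PiNat.eq_of_dist_eq_zero x y h
theorem sd_le_iff {α : Type} {x y : ℕ → α} {n : ℕ} :
    (∀ i < n, x i = y i) ↔ sd x y ≤ (1 / 2) ^ n :=
  PiNat.mem_cylinder_iff_dist_le (x := y) (y := x) (n := n)

/-- symbols determine the node -/
theorem sym_injective {z w : Nd} (h : ∀ k, z.sym k = w.sym k) : z = w := by
  cases z with
  | root b =>
    cases w with
    | root b' => have := h 0; simp [Nd.sym] at this; rw [this]
    | child p o ρ d τ =>
      have := h (p.birth + d + 1)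
      simp [Nd.sym] at this
  | child p o ρ d τ =>
    cases w with
    | root b' =>
      have := h (p.birth + d + 1)
      simp [Nd.sym] at this
    | child p' o' ρ' d' τ' =>
      have h1 := h (p.birth + d + 1 + (p'.birth + d' + 1))
      simp only [Nd.sym] at h1
      rw [if_neg (by omega), if_neg (by omega)] at h1
      simp only [Sum.inr.injEq, Prod.mk.injEq] at h1
      obtain ⟨h2, h3, h4, h5, -⟩ := h1
      subst h2; subst h3; subst h4
      have h6 : d = d' := by omega
      subst h6
      have : τ = τ' := by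
        funext i
        have h7 := h (p.birth + d + 1 + i)
        simp only [Nd.sym] at h7
        rw [if_neg (by omega), if_neg (by omega)] at h7
        simpa [Nat.add_sub_cancel_left] using h7
      rw [this]

theorem emb_injective {p q : Pt} (h : emb p = emb q) : p = q := by
  have h0 : p.lv = q.lv := by
    have := congrFun h 0
    simpa [emb] using this
  have h1 : p.nd = q.nd := by
    apply sym_injective
    intro k
    have := congrFun h (k + 1)
    simpa [emb] using this
  cases p; cases q; simp_all

open Classical in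
/-- the distance -/
noncomputable def dd (p q : Pt) : ℝ :=
  if cls p = cls q then (1 / 2) ^ (blk p.lv) * sd (emb p) (emb q) else 1

theorem dd_same {p q : Pt} (h : cls p = cls q) :
    dd p q = (1 / 2) ^ (blk p.lv) * sd (emb p) (emb q) := by
  unfold dd; rw [if_pos h]

theorem dd_diff {p q : Pt} (h : cls p ≠ cls q) : dd p q = 1 := by
  unfold dd; rw [if_neg h]

theorem half_pow_le_one (n : ℕ) : (1 / 2 : ℝ) ^ n ≤ 1 := pow_le_one₀ (by norm_num) (by norm_num)

theorem half_pow_pos (n : ℕ) : 0 < (1 / 2 : ℝ) ^ n := by positivity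

theorem dd_nonneg (p q : Pt) : 0 ≤ dd p q := by
  unfold dd
  split_ifs
  · exact mul_nonneg (half_pow_pos _).le (sd_nonneg _ _)
  · exact zero_le_one

theorem dd_le_one (p q : Pt) : dd p q ≤ 1 := by
  unfold dd
  split_ifs
  · exact mul_le_one₀ (half_pow_le_one _) (sd_nonneg _ _) (sd_le_one _ _)
  · exact le_rfl

theorem dd_comm (p q : Pt) : dd p q = dd q p := by
  by_cases h : cls p = cls q
  · have hb : blk p.lv = blk q.lv := congrArg Prod.fst h
    rw [dd_same h, dd_same h.symm, hb, sd_comm]
  · rw [dd_diff h, dd_diff (fun h' => h h'.symm)]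

theorem dd_triangle (p q s : Pt) : dd p s ≤ dd p q + dd q s := by
  by_cases h1 : cls p = cls s
  · by_cases h2 : cls p = cls q
    · have h3 : cls q = cls s := h2.symm.trans h1
      have hb : blk p.lv = blk q.lv := congrArg Prod.fst h2
      rw [dd_same h1, dd_same h2, dd_same h3, ← hb, ← mul_add]
      exact mul_le_mul_of_nonneg_left (sd_triangle _ _ _) (half_pow_pos _).le
    · rw [dd_diff h2]
      have := dd_le_one p s
      have := dd_nonneg q s
      linarith
  · by_cases h2 : cls p = cls q
    · have h3 : cls q ≠ cls s := fun h => h1 (h2.trans h)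
      rw [dd_diff h1, dd_diff h3]
      have := dd_nonneg p q
      linarith
    · rw [dd_diff h1, dd_diff h2]
      have := dd_nonneg q s
      linarith

noncomputable instance instMetric : MetricSpace Pt where
  dist := dd
  dist_self p := by
    show dd p p = 0
    rw [dd_same rfl, sd_self, mul_zero]
  dist_comm := dd_comm
  dist_triangle := dd_triangle
  eq_of_dist_eq_zero := by
    intro p q h
    have h' : dd p q = 0 := h
    by_cases hc : cls p = cls q
    · rw [dd_same hc] at h'
      rcases mul_eq_zero.1 h' with h1 | h1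
      · exact absurd h1 (half_pow_pos _).ne'
      · exact emb_injective (eq_of_sd h1)
    · rw [dd_diff hc] at h'
      exact absurd h' one_ne_zero

theorem dist_def (p q : Pt) : dist p q = dd p q := rfl

theorem dist_le_one (p q : Pt) : dist p q ≤ 1 := dd_le_one p q

theorem cls_eq_of_dist_lt {p q : Pt} (h : dist p q < 1) : cls p = cls q := by
  by_contra hc
  rw [dist_def, dd_diff hc] at h
  exact lt_irrefl _ h

theorem dist_le_of_cls {p q : Pt} (h : cls p = cls q) : dist p q ≤ (1 / 2) ^ (blk p.lv) := by
  rw [dist_def, dd_same h]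
  exact mul_le_of_le_one_right (half_pow_pos _).le (sd_le_one _ _)

/-- points at small distance have the same level and the same first symbols -/
theorem agree_of_dist {p q : Pt} {n : ℕ} (h : dist p q ≤ (1 / 2) ^ (blk p.lv + n + 1)) :
    p.lv = q.lv ∧ ∀ j < n, p.nd.sym j = q.nd.sym j := by
  have hlt : (1 / 2 : ℝ) ^ (blk p.lv + n + 1) < 1 := by
    rw [pow_succ]
    have := half_pow_le_one (blk p.lv + n)
    linarith [half_pow_pos (blk p.lv + n)]
  have hc := cls_eq_of_dist_lt (lt_of_le_of_lt h hlt)
  rw [dist_def, dd_same hc, show blk p.lv + n + 1 = blk p.lv + (n + 1) by ring, pow_add] at h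
  have h1 : sd (emb p) (emb q) ≤ (1 / 2) ^ (n + 1) := le_of_mul_le_mul_left h (half_pow_pos _)
  have h2 := sd_le_iff.2 h1
  constructor
  · have := h2 0 (by omega)
    simpa [emb] using this
  · intro j hj
    have := h2 (j + 1) (by omega)
    simpa [emb] using this

theorem dist_le_of_agree {p q : Pt} {n : ℕ} (h0 : p.lv = q.lv)
    (h : ∀ j < n, p.nd.sym j = q.nd.sym j) (hn : blk p.lv < n) :
    dist p q ≤ (1 / 2) ^ n := by
  have hc : cls p = cls q := by
    unfold cls
    rw [← h0]
    congr 1
    exact Nd.code_congr (fun j hj => h j (by omega))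
  rw [dist_def, dd_same hc]
  have h1 : sd (emb p) (emb q) ≤ (1 / 2) ^ n := by
    apply sd_le_iff.1
    intro i hi
    cases i with
    | zero => simp [emb, h0]
    | succ i => simp [emb, h i (by omega)]
  calc (1 / 2 : ℝ) ^ blk p.lv * sd (emb p) (emb q) ≤ 1 * (1 / 2) ^ n :=
        mul_le_mul (half_pow_le_one _) h1 (sd_nonneg _ _) zero_le_one
    _ = _ := one_mul _

/-- the map -/
def fmap (p : Pt) : Pt := ⟨p.nd, p.lv + 1⟩

theorem blk_mono {a b : ℕ} (h : a ≤ b) : blk a ≤ blk b :=
  Nat.log_mono_right (by omega)

theorem sd_fmap (p q : Pt) (h0 : p.lv = q.lv) : sd (emb (fmap p)) (emb (fmap q)) ≤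
    sd (emb p) (emb q) := by
  by_cases hne : emb p = emb q
  · have := emb_injective hne
    rw [this, sd_self, sd_self]
  · have e : sd (emb p) (emb q) = (1 / 2) ^ (PiNat.firstDiff (emb p) (emb q)) :=
      PiNat.dist_eq_of_ne hne
    have h1 := sd_le_iff.2 e.le
    rw [e]
    apply sd_le_iff.1
    intro i hi
    cases i with
    | zero => simp [emb, fmap, h0]
    | succ i =>
      have := h1 (i + 1) hi
      simpa [emb, fmap] using this

theorem continuous_fmap : Continuous fmap := by
  rw [Metric.continuous_iff]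
  intro b ε hε
  refine ⟨min ((1 / 2) ^ (blk b.lv + (blk (b.lv + 1) + 1) + 1)) ε,
    lt_min (half_pow_pos _) hε, ?_⟩
  intro a ha
  have h1 : dist b a ≤ (1 / 2) ^ (blk b.lv + (blk (b.lv + 1) + 1) + 1) := by
    rw [dist_comm]; exact (ha.trans_le (min_le_left _ _)).le
  obtain ⟨h2, h3⟩ := agree_of_dist h1
  have hc' : cls a = cls b := by
    apply cls_eq_of_dist_lt
    rw [dist_comm]
    refine lt_of_le_of_lt h1 ?_
    rw [pow_succ]
    have := half_pow_le_one (blk b.lv + (blk (b.lv + 1) + 1))
    linarith [half_pow_pos (blk b.lv + (blk (b.lv + 1) + 1))]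
  have hc : cls (fmap a) = cls (fmap b) := by
    unfold cls fmap
    simp only
    rw [← h2]
    congr 1
    exact Nd.code_congr (fun j hj => (h3 j (by omega)).symm)
  refine lt_of_le_of_lt ?_ (ha.trans_le (min_le_right _ _))
  rw [dist_def, dist_def, dd_same hc, dd_same hc']
  refine mul_le_mul ?_ (sd_fmap a b h2.symm) (sd_nonneg _ _) (half_pow_pos _).le
  exact pow_le_pow_of_le_one (by norm_num) (by norm_num) (blk_mono (by simp [fmap]))

theorem iter_fmap (n : ℕ) (p : Pt) : fmap^[n] p = ⟨p.nd, p.lv + n⟩ := by
  induction n generalizing p with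
  | zero => rfl
  | succ n ih =>
    rw [Function.iterate_succ_apply, ih]
    simp [fmap]; omega

theorem fmap_injective : Function.Injective fmap := by
  intro p q h
  cases p; cases q
  simp only [fmap, Pt.mk.injEq] at h
  simp only [Pt.mk.injEq]
  exact ⟨h.1, by omega⟩

end Pool.Agent.R247.DP
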