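import Pool.Agent.R247.DP.Tree

/-!
# The step of the infinite descent
-/

namespace Pool.Agent.R247.DP

namespace Nd

/-- Cross matching inside a generation: two children with different roles and the same code: one
is exceptional and has smaller height. -/
theorem match_cross {p o : Nd} {ρ : Bool} {d : ℕ} {τ : ℕ → Bool × Bool} {p' o' : Nd} {ρ' : Bool}
    {d' : ℕ} {τ' : ℕ → Bool × Bool} {k r : ℕ} (hr : birth p + d + 1 = r)
    (hr' : birth p' + d' + 1 = r) (hk : r ≤ k) (hρ : ρ' = !ρ)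
    (hc : code (child p o ρ d τ) k = code (child p' o' ρ' d' τ') k)
    (hx : ¬ exc τ (k - r)) : exc τ' (k - r) ∧ hgt τ' (k - r) + 1 = hgt τ (k - r) := by
  subst hρ
  by_cases hx' : exc τ' (k - r)
  · refine ⟨hx', ?_⟩
    have h1 := (code_child (p := p) (o := o) (ρ := ρ) (d := d) (τ := τ) (k := k)
      (by omega)).2 (by rw [hr]; exact hx)
    have h2 := (code_child (p := p') (o := o') (ρ := !ρ) (d := d') (τ := τ') (k := k)
      (by omega)).1 (by rw [hr']; exact hx')
    rw [h1, h2] at hc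
    have h3 := Sum.inr_injective hc
    have h4 := congrArg (fun x => x.2.2.2.2) h3
    simp only [hr, hr'] at h4
    exact h4.symm
  · exfalso
    have h1 := (code_child (p := p) (o := o) (ρ := ρ) (d := d) (τ := τ) (k := k)
      (by omega)).2 (by rw [hr]; exact hx)
    have h2 := (code_child (p := p') (o := o') (ρ := !ρ) (d := d') (τ := τ') (k := k)
      (by omega)).2 (by rw [hr']; exact hx')
    rw [h1, h2] at hc
    have h3 := Sum.inr_injective hc
    have h4 := congrArg (fun x => x.2.2.2.1) h3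
    simp at h4

/-- A child of type `b` and a node of the opposite type with the same code: the active node of the
second is in the same generation with the opposite role. -/
theorem cross_of_code {η o : Nd} {ρ : Bool} {d : ℕ} {τ : ℕ → Bool × Bool} {x : Nd} {k r : ℕ}
    (hr : birth η + d + 1 = r) (hk : r ≤ k) (hx : ty x ≠ ty η)
    (hc : code x k = code (child η o ρ d τ) k) :
    ∃ d' τ', act x k = child o η (!ρ) d' τ' ∧ birth o + d' + 1 = r ∧ ty o = ty x := by
  have hcode : ∃ a, code (child η o ρ d τ) k = Sum.inr a ∧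
      a.1 = (if ρ = true then o else η) ∧ a.2.1 = (if ρ = true then η else o) ∧ a.2.2.1 = r := by
    by_cases hx : exc τ (k - (birth η + d + 1))
    · exact ⟨_, (code_child (by omega)).1 hx, rfl, rfl, hr⟩
    · exact ⟨_, (code_child (by omega)).2 hx, rfl, rfl, hr⟩
  obtain ⟨a, ha, ha1, ha2, ha3⟩ := hcode
  rw [ha] at hc
  obtain ⟨p', o', ρ', d', τ', h1, h2, h3, h4, h5⟩ := act_of_code hc
  have hty : ty p' = ty x := by
    have := ty_act x k
    rw [h1] at this
    simpa only [ty] using this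
  have hp : p' ≠ η := by
    intro h; rw [h] at hty; exact hx hty.symm
  rw [ha1] at h3
  rw [ha2] at h4
  cases ρ <;> cases ρ' <;> simp at h3 h4
  · exact absurd h3.symm hp
  · subst h3; subst h4
    exact ⟨d', τ', h1, by omega, hty⟩
  · subst h3; subst h4
    exact ⟨d', τ', h1, by omega, hty⟩
  · exact absurd h4.symm hp

/-- The two sets have the same codes at time `k`. -/
def Matched (A B : Set Nd) (k : ℕ) : Prop :=
  (∀ x ∈ A, ∃ y ∈ B, code x k = code y k) ∧ (∀ y ∈ B, ∃ x ∈ A, code x k = code y k)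

/-- step of the descent -/
theorem step {A B : Set Nd} (hA : ∀ x ∈ A, ty x = false) (hB : ∀ y ∈ B, ty y = true)
    {S : Set ℕ} (hS : S.Infinite) (hM : ∀ k ∈ S, Matched A B k)
    {η o : Nd} {ρ : Bool} {d : ℕ} {τ : ℕ → Bool × Bool} (hz : child η o ρ d τ ∈ B) :
    ∃ τ' : ℕ → Bool × Bool, ∃ z' ∈ B, anc (child η o ρ d τ') z' ∧ z' ≠ child η o ρ d τ' := by
  classical
  set r := birth η + d + 1 with hr
  have htyη : ty η = true := by
    have := hB _ hz; simpa only [ty] using this
  -- choose k₁ < k₂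
  obtain ⟨k1, hk1S, hk1⟩ := hS.exists_gt r
  obtain ⟨k2, hk2S, hk2, hx2⟩ : ∃ k2 ∈ S, k1 < k2 ∧ ¬ exc τ (k2 - r) := by
    obtain ⟨a, haS, ha⟩ := hS.exists_gt k1
    obtain ⟨b, hbS, hb⟩ := hS.exists_gt a
    by_cases h : exc τ (a - r)
    · refine ⟨b, hbS, by omega, ?_⟩
      intro h'
      have := exc_unique h h'
      omega
    · exact ⟨a, haS, ha, h⟩
  -- partner of z at time k₂
  have hzty : ∀ x ∈ A, ty x ≠ ty η := by
    intro x hx; rw [hA x hx, htyη]; simp
  obtain ⟨x', hx'A, hx'c⟩ := (hM k2 hk2S).2 _ hz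
  obtain ⟨d', τx', hact', hbo, htyo⟩ :=
    cross_of_code (η := η) (o := o) (ρ := ρ) (d := d) (τ := τ) hr.symm (by omega)
      (hzty x' hx'A) hx'c
  have htyo' : ty o = false := by rw [htyo, hA x' hx'A]
  have hm2 : exc τx' (k2 - r) ∧ hgt τx' (k2 - r) + 1 = hgt τ (k2 - r) := by
    refine match_cross (p := η) (o := o) (ρ := ρ) (d := d) (τ := τ) (p' := o) (o' := η)
      (ρ' := !ρ) (d' := d') (τ' := τx') hr.symm hbo (by omega) rfl ?_ hx2
    rw [← hx'c, ← code_act x' k2, hact']
  -- the set of main heights on the `A` side at time k₁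
  let Q : ℕ → Prop := fun n => ∃ x ∈ A, ∃ τ'', act x k1 = child o η (!ρ) d' τ'' ∧
    ¬ exc τ'' (k1 - r) ∧ hgt τ'' (k1 - r) = n
  have hQ : ∃ n, Q n := by
    refine ⟨_, x', hx'A, τx', ?_, ?_, rfl⟩
    · rw [← hact']
      apply act_eq_of_le _ hk2.le
      rw [hact']; simp only [birth]; omega
    · intro h
      have := exc_unique h hm2.1
      omega
  obtain ⟨x, hxA, τx, hactx, hxx, hxn⟩ := Nat.find_spec hQ
  have hmin : ∀ n, Q n → Nat.find hQ ≤ n := fun n hn => Nat.find_min' hQ hn
  -- its partner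
  obtain ⟨y, hyB, hyc⟩ := (hM k1 hk1S).1 x hxA
  have hyty : ty y ≠ ty o := by rw [hB y hyB, htyo']; simp
  have hcxy : code y k1 = code (child o η (!ρ) d' τx) k1 := by
    rw [← hyc, ← code_act x k1, hactx]
  obtain ⟨d'', τy, hacty, hbη, -⟩ :=
    cross_of_code (η := o) (o := η) (ρ := !ρ) (d := d') (τ := τx) (k := k1) hbo (by omega) hyty hcxy
  have hdd : d'' = d := by omega
  subst hdd
  rw [Bool.not_not] at hacty
  have hm1 : exc τy (k1 - r) ∧ hgt τy (k1 - r) + 1 = hgt τx (k1 - r) := by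
    refine match_cross (p := o) (o := η) (ρ := !ρ) (d := d') (τ := τx) (p' := η) (o' := o)
      (ρ' := ρ) (d' := d'') (τ' := τy) hbo hr.symm (by omega) (by simp) ?_ hxx
    rw [← hcxy, ← code_act y k1, hacty]
  refine ⟨τy, y, hyB, ?_, ?_⟩
  · rw [← hacty]; exact act_anc y k1
  · intro hyv
    -- then `y` is still active at `k₂`
    have hacty2 : act y k2 = child η o ρ d'' τy := by
      rw [hyv]; apply act_self; simp only [birth]; omega
    obtain ⟨x'', hx''A, hx''c⟩ := (hM k2 hk2S).2 y hyB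
    have hcy : code y k2 = code (child η o ρ d'' τy) k2 := by rw [hyv]
    rw [hcy] at hx''c
    obtain ⟨e, τx'', hact'', hbo'', -⟩ :=
      cross_of_code (η := η) (o := o) (ρ := ρ) (d := d'') (τ := τy) hr.symm (by omega)
        (hzty x'' hx''A) hx''c
    have hed : e = d' := by omega
    subst hed
    have hy2 : ¬ exc τy (k2 - r) := by
      intro h
      have := exc_unique h hm1.1
      omega
    have hm3 : exc τx'' (k2 - r) ∧ hgt τx'' (k2 - r) + 1 = hgt τy (k2 - r) := by
      refine match_cross (p := η) (o := o) (ρ := ρ) (d := d'') (τ := τy) (p' := o) (o' := η)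
        (ρ' := !ρ) (d' := e) (τ' := τx'') hr.symm hbo'' (by omega) rfl ?_ hy2
      rw [← hx''c, ← code_act x'' k2, hact'']
    have hq : Q (hgt τx'' (k1 - r)) := by
      refine ⟨x'', hx''A, τx'', ?_, ?_, rfl⟩
      · rw [← hact'']
        apply act_eq_of_le _ hk2.le
        rw [hact'']; simp only [birth]; omega
      · intro h
        have := exc_unique h hm3.1
        omega
    have h1 := hmin _ hq
    rw [← hxn] at h1
    have h2 : hgt τx'' (k1 - r) ≤ hgt τy (k1 - r) :=
      hgt_mono (m := k1 - r) (m' := k2 - r) (by omega) (by omega)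
    omega

/-- no element of `B` is a root -/
theorem not_root {A B : Set Nd} (hA : ∀ x ∈ A, ty x = false) (hB : ∀ y ∈ B, ty y = true)
    {k : ℕ} (hM : Matched A B k) (b : Bool) : root b ∉ B := by
  intro h
  obtain ⟨x, hx, hc⟩ := hM.2 _ h
  have h1 : code x k = Sum.inl b := hc
  have h2 := code_eq_inl h1
  rw [hA x hx] at h2
  have h3 := hB _ h
  simp only [ty] at h3
  rw [h3] at h2; cases h2

/-- The chain: a sequence in `B` and a strictly increasing sequence of nodes. -/
theorem chain {A B : Set Nd} (hA : ∀ x ∈ A, ty x = false) (hB : ∀ y ∈ B, ty y = true)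
    (hne : B.Nonempty) {S : Set ℕ} (hS : S.Infinite) (hM : ∀ k ∈ S, Matched A B k) :
    ∃ (z : ℕ → Nd) (b : ℕ → ℕ), (∀ n, z n ∈ B) ∧
      ∀ n m, n < m → ∃ a, sym (z m) (b n) = Sum.inr a ∧ n ≤ depth a.1 ∧
        sym (z m) (b n) = sym (z (n + 1)) (b n) := by
  classical
  obtain ⟨k0, hk0⟩ := hS.nonempty
  -- elements of `B` are children
  have hch : ∀ w ∈ B, ∃ p o ρ d τ, w = child p o ρ d τ := by
    intro w hw
    cases w with
    | root b => exact absurd hw (not_root hA hB (hM k0 hk0) b)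
    | child p o ρ d τ => exact ⟨p, o, ρ, d, τ, rfl⟩
  have hstep : ∀ w : {w // w ∈ B}, ∃ w' : {w // w ∈ B}, ∃ p o ρ d τ τ', w.1 = child p o ρ d τ ∧
      anc (child p o ρ d τ') w'.1 ∧ w'.1 ≠ child p o ρ d τ' := by
    rintro ⟨w, hw⟩
    obtain ⟨p, o, ρ, d, τ, rfl⟩ := hch w hw
    obtain ⟨τ', z', hz', h1, h2⟩ := step hA hB hS hM hw
    exact ⟨⟨z', hz'⟩, p, o, ρ, d, τ, τ', rfl, h1, h2⟩
  choose nx P O R D T T' hnx1 hnx2 hnx3 using hstep
  obtain ⟨w0, hw0⟩ := hne
  let Z : ℕ → {w // w ∈ B} := fun n => Nat.rec ⟨w0, hw0⟩ (fun _ w => nx w) n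
  have hZ : ∀ n, Z (n + 1) = nx (Z n) := fun n => rfl
  -- the node above
  let V : ℕ → Nd := fun n => child (P (Z n)) (O (Z n)) (R (Z n)) (D (Z n)) (T' (Z n))
  have hV : ∀ n, anc (V n) (P (Z (n + 1))) := by
    intro n
    have h1 := hnx2 (Z n)
    have h2 := hnx3 (Z n)
    rw [← hZ n] at h1 h2
    have h3 := hnx1 (Z (n + 1))
    rw [h3] at h1 h2
    rcases h1 with h1 | h1
    · exact absurd h1 h2
    · exact h1
  have hVV : ∀ n, anc (V n) (V (n + 1)) := fun n => Or.inr (hV n)
  have hVm : ∀ n m, n ≤ m → anc (V n) (V m) := by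
    intro n m h
    induction m, h using Nat.le_induction with
    | base => exact anc_refl _
    | succ m _ ih => exact anc_trans ih (hVV m)
  have hVZ : ∀ n m, n < m → anc (V n) (Z m).1 := by
    intro n m h
    obtain ⟨j, rfl⟩ : ∃ j, m = j + 1 := ⟨m - 1, by omega⟩
    have h1 : anc (V n) (V j) := hVm n j (by omega)
    have h2 : anc (V j) (Z (j + 1)).1 := by rw [hZ j]; exact hnx2 (Z j)
    exact anc_trans h1 h2
  have hdep : ∀ n, n ≤ depth (P (Z n)) := by
    intro n
    induction n with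
    | zero => omega
    | succ n ih =>
      have h1 := depth_le_of_anc (hV n)
      simp only [V, depth] at h1
      omega
  refine ⟨fun n => (Z n).1, fun n => birth (P (Z n)) + D (Z n) + 1, fun n => (Z n).2, ?_⟩
  intro n m hnm
  have h1 := sym_at_birth (hVZ n m hnm)
  have h2 := sym_at_birth (hVZ n (n + 1) (by omega))
  exact ⟨_, h1, hdep n, by rw [h1, h2]⟩

end Nd

end Pool.Agent.R247.DP
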