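import Mathlib

/-!
# A tree of points with codes (combinatorial core)
-/

namespace Pool.Agent.R247.DP

/-- Points: two roots, and children. A child has a parent, a companion node, a role, a waiting
time and a sequence of pairs of bits (height bits and trigger bits). -/
inductive Nd : Type
  | root (b : Bool) : Nd
  | child (par oth : Nd) (role : Bool) (d : ℕ) (τ : ℕ → Bool × Bool) : Nd

/-- symbols -/
abbrev Sy : Type := Bool ⊕ (Nd × Nd × Bool × ℕ × (Bool × Bool))

/-- codes -/
abbrev Co : Type := Bool ⊕ (Nd × Nd × ℕ × Bool × ℕ)

/-- the number given by the first `m` height bits -/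
def hgt (τ : ℕ → Bool × Bool) : ℕ → ℕ
  | 0 => 0
  | m + 1 => 2 * hgt τ m + (if (τ m).1 = true then 1 else 0)

/-- `m` is the exceptional time -/
def exc (τ : ℕ → Bool × Bool) (m : ℕ) : Prop :=
  (τ m).2 = true ∧ (∀ j < m, (τ j).2 = false) ∧ hgt τ m + 1 < 2 ^ m

namespace Nd

open Classical in
/-- time of birth -/
noncomputable def birth : Nd → ℕ
  | root _ => 0
  | child p _ _ d _ => birth p + d + 1

/-- the root above -/
def ty : Nd → Bool
  | root b => b
  | child p _ _ _ _ => ty p

def depth : Nd → ℕ
  | root _ => 0
  | child p _ _ _ _ => depth p + 1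

open Classical in
/-- the symbol at time `k` -/
noncomputable def sym : Nd → ℕ → Sy
  | root b, _ => Sum.inl b
  | child p o ρ d τ, k =>
      if k < birth p + d + 1 then sym p k
      else Sum.inr (p, o, ρ, birth p + d + 1, τ (k - (birth p + d + 1)))

open Classical in
/-- the code at time `k` -/
noncomputable def code : Nd → ℕ → Co
  | root b, _ => Sum.inl b
  | child p o ρ d τ, k =>
      if k < birth p + d + 1 then code p k
      else Sum.inr (if ρ = true then o else p, if ρ = true then p else o, birth p + d + 1,
        if exc τ (k - (birth p + d + 1)) then !ρ else ρ,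
        if exc τ (k - (birth p + d + 1)) then hgt τ (k - (birth p + d + 1)) + 1
        else hgt τ (k - (birth p + d + 1)))

open Classical in
/-- the node active at time `k` -/
noncomputable def act : Nd → ℕ → Nd
  | root b, _ => root b
  | child p o ρ d τ, k =>
      if k < birth p + d + 1 then act p k else child p o ρ d τ

/-- `anc v z`: the node `v` is `z` or above `z` -/
def anc (v : Nd) : Nd → Prop
  | root b => root b = v
  | child p o ρ d τ => child p o ρ d τ = v ∨ anc v p

theorem anc_refl (z : Nd) : anc z z := by
  cases z with
  | root b => rfl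
  | child p o ρ d τ => exact Or.inl rfl

theorem anc_trans {u v : Nd} (h : anc u v) : ∀ {z : Nd}, anc v z → anc u z := by
  intro z
  induction z with
  | root b =>
    intro h2
    have : root b = v := h2
    subst this; exact h
  | child p o ρ d τ ih _ =>
    intro h2
    rcases h2 with h2 | h2
    · rw [h2]; exact h
    · exact Or.inr (ih h2)

theorem birth_le_of_anc {v : Nd} : ∀ {z : Nd}, anc v z → birth v ≤ birth z := by
  intro z
  induction z with
  | root b => intro h; have : root b = v := h; subst this; exact le_rfl
  | child p o ρ d τ ih _ =>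
    intro h
    rcases h with h | h
    · rw [h]
    · have := ih h
      simp only [birth]; omega

theorem depth_le_of_anc {v : Nd} : ∀ {z : Nd}, anc v z → depth v ≤ depth z := by
  intro z
  induction z with
  | root b => intro h; have : root b = v := h; subst this; exact le_rfl
  | child p o ρ d τ ih _ =>
    intro h
    rcases h with h | h
    · rw [h]
    · have := ih h
      simp only [depth]; omega

theorem ty_eq_of_anc {v : Nd} : ∀ {z : Nd}, anc v z → ty v = ty z := by
  intro z
  induction z with
  | root b => intro h; have : root b = v := h; subst this; rfl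
  | child p o ρ d τ ih _ =>
    intro h
    rcases h with h | h
    · rw [h]
    · have := ih h
      simpa only [ty] using this

theorem act_anc (z : Nd) (k : ℕ) : anc (act z k) z := by
  induction z with
  | root b => rfl
  | child p o ρ d τ ih _ =>
    unfold act
    split_ifs with h
    · exact Or.inr ih
    · exact Or.inl rfl

theorem birth_act_le (z : Nd) (k : ℕ) : birth (act z k) ≤ k := by
  induction z with
  | root b => simp [act, birth]
  | child p o ρ d τ ih _ =>
    unfold act
    split_ifs with h
    · exact ih
    · simp only [birth]; omega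

theorem ty_act (z : Nd) (k : ℕ) : ty (act z k) = ty z := ty_eq_of_anc (act_anc z k)

theorem act_self {z : Nd} {k : ℕ} (h : birth z ≤ k) : act z k = z := by
  cases z with
  | root b => rfl
  | child p o ρ d τ =>
    simp only [birth] at h
    unfold act
    rw [if_neg (by omega)]

theorem act_eq_of_le {z : Nd} {k k' : ℕ} (h1 : birth (act z k) ≤ k') (h2 : k' ≤ k) :
    act z k' = act z k := by
  induction z with
  | root b => rfl
  | child p o ρ d τ ih _ =>
    by_cases h : k < birth p + d + 1
    · have e1 : act (child p o ρ d τ) k = act p k := by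
        simp only [act]; rw [if_pos h]
      have e2 : act (child p o ρ d τ) k' = act p k' := by
        simp only [act]; rw [if_pos (by omega)]
      rw [e1, e2]
      rw [e1] at h1
      exact ih h1
    · have e1 : act (child p o ρ d τ) k = child p o ρ d τ := by
        simp only [act]; rw [if_neg h]
      rw [e1] at h1 ⊢
      exact act_self h1

theorem code_act (z : Nd) (k : ℕ) : code (act z k) k = code z k := by
  induction z with
  | root b => rfl
  | child p o ρ d τ ih _ =>
    by_cases h : k < birth p + d + 1
    · have e1 : act (child p o ρ d τ) k = act p k := by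
        simp only [act]; rw [if_pos h]
      have e2 : code (child p o ρ d τ) k = code p k := by
        simp only [code]; rw [if_pos h]
      rw [e1, e2, ih]
    · have e1 : act (child p o ρ d τ) k = child p o ρ d τ := by
        simp only [act]; rw [if_neg h]
      rw [e1]

theorem sym_act (z : Nd) {k j : ℕ} (h1 : birth (act z k) ≤ j) (h2 : j ≤ k) :
    sym z j = sym (act z k) j := by
  induction z with
  | root b => rfl
  | child p o ρ d τ ih _ =>
    by_cases h : k < birth p + d + 1
    · have e1 : act (child p o ρ d τ) k = act p k := by
        simp only [act]; rw [if_pos h]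
      have e2 : sym (child p o ρ d τ) j = sym p j := by
        simp only [sym]; rw [if_pos (by omega)]
      rw [e1] at h1 ⊢
      rw [e2]; exact ih h1
    · have e1 : act (child p o ρ d τ) k = child p o ρ d τ := by
        simp only [act]; rw [if_neg h]
      rw [e1]

/-- code of a child after its birth -/
theorem code_child {p o : Nd} {ρ : Bool} {d : ℕ} {τ : ℕ → Bool × Bool} {k : ℕ}
    (h : birth p + d + 1 ≤ k) :
    (exc τ (k - (birth p + d + 1)) → code (child p o ρ d τ) k =
      Sum.inr (if ρ = true then o else p, if ρ = true then p else o, birth p + d + 1, !ρ,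
        hgt τ (k - (birth p + d + 1)) + 1)) ∧
    (¬ exc τ (k - (birth p + d + 1)) → code (child p o ρ d τ) k =
      Sum.inr (if ρ = true then o else p, if ρ = true then p else o, birth p + d + 1, ρ,
        hgt τ (k - (birth p + d + 1)))) := by
  have e : ¬ k < birth p + d + 1 := by omega
  constructor
  · intro hx
    simp only [code, if_neg e, if_pos hx]
  · intro hx
    simp only [code, if_neg e, if_neg hx]

theorem code_eq_inl {z : Nd} {k : ℕ} {b : Bool} (h : code z k = Sum.inl b) : b = ty z := by
  induction z with
  | root b' => simp only [code, Sum.inl.injEq] at h; exact h.symm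
  | child p o ρ d τ ih _ =>
    by_cases hk : k < birth p + d + 1
    · simp only [code, if_pos hk] at h
      simpa only [ty] using ih h
    · simp only [code, if_neg hk] at h
      exact absurd h (by simp)

/-- if the code is in a generation, the active node is a child in this generation -/
theorem act_of_code {z : Nd} {k : ℕ} {a : Nd × Nd × ℕ × Bool × ℕ} (h : code z k = Sum.inr a) :
    ∃ p o ρ d τ, act z k = child p o ρ d τ ∧ birth p + d + 1 ≤ k ∧
      a.1 = (if ρ = true then o else p) ∧ a.2.1 = (if ρ = true then p else o) ∧
      a.2.2.1 = birth p + d + 1 := by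
  have h1 := code_act z k
  have h2 := birth_act_le z k
  rw [h] at h1
  cases hv : act z k with
  | root b => rw [hv] at h1; simp [code] at h1
  | child p o ρ d τ =>
    rw [hv] at h1 h2
    simp only [birth] at h2
    refine ⟨p, o, ρ, d, τ, rfl, h2, ?_⟩
    by_cases hx : exc τ (k - (birth p + d + 1))
    · rw [(code_child h2).1 hx] at h1
      have := Sum.inr_injective h1
      rw [← this]
      exact ⟨rfl, rfl, rfl⟩
    · rw [(code_child h2).2 hx] at h1
      have := Sum.inr_injective h1
      rw [← this]
      exact ⟨rfl, rfl, rfl⟩

theorem exc_unique {τ : ℕ → Bool × Bool} {m m' : ℕ} (h : exc τ m) (h' : exc τ m') : m = m' := by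
  rcases lt_trichotomy m m' with hlt | heq | hgt
  · have := h'.2.1 m hlt
    rw [h.1] at this; cases this
  · exact heq
  · have := h.2.1 m' hgt
    rw [h'.1] at this; cases this

theorem hgt_mono_aux (τ τ' : ℕ → Bool × Bool) (m j : ℕ) (h : hgt τ m < hgt τ' m) :
    hgt τ (m + j) < hgt τ' (m + j) := by
  induction j with
  | zero => exact h
  | succ j ih =>
    rw [← add_assoc]
    simp only [hgt]
    split_ifs <;> omega

theorem hgt_mono {τ τ' : ℕ → Bool × Bool} {m m' : ℕ} (hm : m ≤ m') (h : hgt τ m' < hgt τ' m') :
    hgt τ m ≤ hgt τ' m := by
  by_contra hc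
  push Not at hc
  obtain ⟨j, rfl⟩ := Nat.exists_eq_add_of_le hm
  have := hgt_mono_aux τ' τ m j hc
  omega

theorem depth_lt_of_sym {z : Nd} {k : ℕ} {a : Nd × Nd × Bool × ℕ × (Bool × Bool)}
    (h : sym z k = Sum.inr a) : depth a.1 < depth z := by
  induction z with
  | root b => simp [sym] at h
  | child p o ρ d τ ih _ =>
    by_cases hk : k < birth p + d + 1
    · simp only [sym, if_pos hk] at h
      have := ih h
      simp only [depth]; omega
    · simp only [sym, if_neg hk] at h
      have := Sum.inr_injective h
      rw [← this]
      simp only [depth]; omega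

theorem sym_at_birth {p o : Nd} {ρ : Bool} {d : ℕ} {τ : ℕ → Bool × Bool} {z : Nd}
    (h : anc (child p o ρ d τ) z) :
    sym z (birth p + d + 1) = Sum.inr (p, o, ρ, birth p + d + 1, τ 0) := by
  induction z with
  | root b => exact absurd (show root b = child p o ρ d τ from h) (by simp)
  | child p' o' ρ' d' τ' ih _ =>
    rcases h with h | h
    · rw [h]
      simp [sym]
    · have := birth_le_of_anc h
      simp only [birth] at this
      have e : sym (child p' o' ρ' d' τ') (birth p + d + 1) = sym p' (birth p + d + 1) := by
        simp only [sym]; rw [if_pos (by omega)]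
      rw [e]; exact ih h

theorem code_of_sym_inl {z : Nd} {k : ℕ} {b : Bool} (h : sym z k = Sum.inl b) :
    code z k = Sum.inl b := by
  induction z with
  | root b' => simpa [sym, code] using h
  | child p o ρ d τ ih _ =>
    by_cases hk : k < birth p + d + 1
    · simp only [sym, if_pos hk] at h
      simp only [code, if_pos hk]; exact ih h
    · simp only [sym, if_neg hk] at h
      exact absurd h (by simp)

theorem hgt_congr {τ τ' : ℕ → Bool × Bool} {m : ℕ} (h : ∀ j < m, τ j = τ' j) :
    hgt τ m = hgt τ' m := by
  induction m with
  | zero => rfl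
  | succ m ih =>
    simp only [hgt]
    rw [ih (fun j hj => h j (by omega)), h m (by omega)]

theorem exc_congr {τ τ' : ℕ → Bool × Bool} {m : ℕ} (h : ∀ j ≤ m, τ j = τ' j) :
    exc τ m ↔ exc τ' m := by
  unfold exc
  rw [h m le_rfl, hgt_congr (fun j hj => h j (le_of_lt hj))]
  constructor
  · rintro ⟨h1, h2, h3⟩
    exact ⟨h1, fun j hj => by rw [← h j hj.le]; exact h2 j hj, h3⟩
  · rintro ⟨h1, h2, h3⟩
    exact ⟨h1, fun j hj => by rw [h j hj.le]; exact h2 j hj, h3⟩

/-- the code at time `k` depends on the symbols up to time `k` only -/
theorem code_congr {z w : Nd} {k : ℕ} (h : ∀ j ≤ k, sym z j = sym w j) : code z k = code w k := by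
  cases hz : sym z k with
  | inl b =>
    have hw : sym w k = Sum.inl b := by rw [← h k le_rfl]; exact hz
    rw [code_of_sym_inl hz, code_of_sym_inl hw]
  | inr a =>
    have hw : sym w k = Sum.inr a := by rw [← h k le_rfl]; exact hz
    -- active nodes
    have key : ∀ z' : Nd, sym z' k = Sum.inr a → ∃ d τ, act z' k = child a.1 a.2.1 a.2.2.1 d τ ∧
        birth a.1 + d + 1 = a.2.2.2.1 ∧ birth a.1 + d + 1 ≤ k := by
      intro z' hz'
      have h1 := sym_act z' (k := k) (j := k) (birth_act_le z' k) le_rfl
      have h2 := birth_act_le z' k
      rw [hz'] at h1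
      cases hv : act z' k with
      | root b => rw [hv] at h1; simp [sym] at h1
      | child p o ρ d τ =>
        rw [hv] at h1 h2
        simp only [birth] at h2
        simp only [sym, if_neg (show ¬ k < birth p + d + 1 by omega)] at h1
        have h3 := Sum.inr_injective h1
        refine ⟨d, τ, ?_, ?_, ?_⟩
        · rw [h3]
        · rw [h3]
        · rw [h3]; exact h2
    obtain ⟨d, τ, hz1, hz2, hz3⟩ := key z hz
    obtain ⟨d', τ', hw1, hw2, hw3⟩ := key w hw
    have hdd : d = d' := by omega
    subst hdd
    set r := birth a.1 + d + 1 with hr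
    have hτ : ∀ j ≤ k - r, τ j = τ' j := by
      intro j hj
      have h1 := sym_act z (k := k) (j := r + j) (by rw [hz1]; simp only [birth]; omega) (by omega)
      have h2 := sym_act w (k := k) (j := r + j) (by rw [hw1]; simp only [birth]; omega) (by omega)
      rw [h (r + j) (by omega), h2, hw1, hz1] at h1
      simp only [sym] at h1
      rw [← hr, if_neg (by omega), if_neg (by omega)] at h1
      have h3 := Sum.inr_injective h1
      have h4 : τ' (r + j - r) = τ (r + j - r) := by
        have := congrArg (fun x => x.2.2.2.2) h3
        exact this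
      rw [Nat.add_sub_cancel_left] at h4
      exact h4.symm
    rw [← code_act z k, ← code_act w k, hz1, hw1]
    by_cases hx : exc τ (k - r)
    · have hx' : exc τ' (k - r) := (exc_congr hτ).1 hx
      rw [(code_child hz3).1 hx, (code_child hw3).1 hx']
      rw [hgt_congr (τ := τ) (τ' := τ') (fun j hj => hτ j hj.le)]
    · have hx' : ¬ exc τ' (k - r) := fun h => hx ((exc_congr hτ).2 h)
      rw [(code_child hz3).2 hx, (code_child hw3).2 hx']
      rw [hgt_congr (τ := τ) (τ' := τ') (fun j hj => hτ j hj.le)]

end Nd

end Pool.Agent.R247.DP
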