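import Pool.Agent.R247.DP.Space

/-!
# Heights and partners
-/

open Filter Topology

namespace Pool.Agent.R247.DP

theorem hgt_lt (τ : ℕ → Bool × Bool) (m : ℕ) : hgt τ m < 2 ^ m := by
  induction m with
  | zero => simp [hgt]
  | succ m ih =>
    simp only [hgt, pow_succ]
    split_ifs <;> omega

theorem hgt_add_lower (τ : ℕ → Bool × Bool) (m j : ℕ) : hgt τ m * 2 ^ j ≤ hgt τ (m + j) := by
  induction j with
  | zero => simp
  | succ j ih =>
    rw [← add_assoc]
    simp only [hgt, pow_succ]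
    have : hgt τ m * (2 ^ j * 2) = 2 * (hgt τ m * 2 ^ j) := by ring
    rw [this]
    split_ifs <;> omega

theorem hgt_add_upper (τ : ℕ → Bool × Bool) (m j : ℕ) :
    hgt τ (m + j) + 1 ≤ (hgt τ m + 1) * 2 ^ j := by
  induction j with
  | zero => simp
  | succ j ih =>
    rw [← add_assoc]
    simp only [hgt, pow_succ]
    have : (hgt τ m + 1) * (2 ^ j * 2) = 2 * ((hgt τ m + 1) * 2 ^ j) := by ring
    rw [this]
    split_ifs <;> omega

/-- the real number given by the height bits -/
noncomputable def val (τ : ℕ → Bool × Bool) : ℝ := ⨅ m, ((hgt τ m : ℝ) + 1) / 2 ^ m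

theorem val_bdd (τ : ℕ → Bool × Bool) :
    BddBelow (Set.range fun m => ((hgt τ m : ℝ) + 1) / 2 ^ m) :=
  ⟨0, by rintro _ ⟨m, rfl⟩; positivity⟩

theorem val_le (τ : ℕ → Bool × Bool) (m : ℕ) : val τ ≤ ((hgt τ m : ℝ) + 1) / 2 ^ m :=
  ciInf_le (val_bdd τ) m

theorem le_val_iff (τ : ℕ → Bool × Bool) (a : ℝ) :
    a ≤ val τ ↔ ∀ m, a ≤ ((hgt τ m : ℝ) + 1) / 2 ^ m :=
  ⟨fun h m => h.trans (val_le τ m), fun h => le_ciInf h⟩

theorem val_nonneg (τ : ℕ → Bool × Bool) : 0 ≤ val τ := by
  rw [le_val_iff]; intro m; positivity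

theorem val_le_one (τ : ℕ → Bool × Bool) : val τ ≤ 1 := by
  have := val_le τ 0
  simpa [hgt] using this

theorem hgt_le_val (τ : ℕ → Bool × Bool) (m : ℕ) : (hgt τ m : ℝ) / 2 ^ m ≤ val τ := by
  rw [le_val_iff]
  intro j
  rcases le_total j m with h | h
  · obtain ⟨i, rfl⟩ := Nat.exists_eq_add_of_le h
    have h1 := hgt_add_upper τ j i
    have h2 : (hgt τ (j + i) : ℝ) + 1 ≤ ((hgt τ j : ℝ) + 1) * 2 ^ i := by exact_mod_cast h1
    rw [div_le_div_iff₀ (by positivity) (by positivity), pow_add]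
    have h3 : (0 : ℝ) < 2 ^ j := by positivity
    nlinarith
  · obtain ⟨i, rfl⟩ := Nat.exists_eq_add_of_le h
    have h1 := hgt_add_lower τ m i
    have h2 : (hgt τ m : ℝ) * 2 ^ i ≤ (hgt τ (m + i) : ℝ) := by exact_mod_cast h1
    rw [div_le_div_iff₀ (by positivity) (by positivity), pow_add]
    have h3 : (0 : ℝ) < 2 ^ m := by positivity
    nlinarith

/-- the top sequence -/
def top : ℕ → Bool × Bool := fun _ => (true, false)

theorem hgt_top (m : ℕ) : hgt top m + 1 = 2 ^ m := by
  induction m with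
  | zero => simp [hgt]
  | succ m ih =>
    simp only [hgt, pow_succ]
    rw [if_pos (by rfl)]; omega

theorem val_top : val top = 1 := by
  apply le_antisymm (val_le_one _)
  rw [le_val_iff]
  intro m
  have : (hgt top m : ℝ) + 1 = 2 ^ m := by exact_mod_cast hgt_top m
  rw [this, div_self (by positivity)]

theorem exists_bits (m : ℕ) : ∀ N, N < 2 ^ m → ∀ θ : ℕ → Bool,
    ∃ τ : ℕ → Bool × Bool, hgt τ m = N ∧ ∀ i, (τ i).2 = θ i := by
  induction m with
  | zero =>
    intro N hN θ
    exact ⟨fun i => (false, θ i), by simp [hgt]; omega, fun i => rfl⟩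
  | succ m ih =>
    intro N hN θ
    obtain ⟨τ, h1, h2⟩ := ih (N / 2) (by rw [pow_succ] at hN; omega) θ
    refine ⟨fun i => if i = m then (decide (N % 2 = 1), θ i) else τ i, ?_, ?_⟩
    · simp only [hgt]
      have : hgt (fun i => if i = m then (decide (N % 2 = 1), θ i) else τ i) m = hgt τ m := by
        apply Nd.hgt_congr
        intro j hj
        rw [if_neg (by omega)]
      rw [this, h1]
      by_cases h : N % 2 = 1
      · simp [h]; omega
      · simp [h]; omega
    · intro i
      by_cases h : i = m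
      · simp [h]
      · simp [h, h2]

/-- Partners. -/
theorem partner (ω η : Nd) (ρ : Bool) (τ : ℕ → Bool × Bool) (R k : ℕ) (hω : ω.birth < R)
    (hη : η.birth < R) (hk : R ≤ k) :
    val τ ≤ (1 / 2) ^ (k - R) ∨ ∃ τ' : ℕ → Bool × Bool,
      (Nd.child ω η ρ (R - ω.birth - 1) τ).code k =
        (Nd.child η ω (!ρ) (R - η.birth - 1) τ').code k ∧
      val τ ≤ val τ' + 2 * (1 / 2) ^ (k - R) := by
  set m := k - R with hm
  have e1 : ω.birth + (R - ω.birth - 1) + 1 = R := by omega
  have e2 : η.birth + (R - η.birth - 1) + 1 = R := by omega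
  have hpow : (1 / 2 : ℝ) ^ m = 1 / 2 ^ m := by rw [one_div_pow]
  have hpos : (0 : ℝ) < 2 ^ m := by positivity
  by_cases hx : exc τ m
  · right
    obtain ⟨τ', h1, h2⟩ := exists_bits m (hgt τ m + 1) hx.2.2 (fun _ => false)
    have hx' : ¬ exc τ' m := by
      intro h; have := h.1; rw [h2] at this; cases this
    refine ⟨τ', ?_, ?_⟩
    · rw [(Nd.code_child (p := ω) (o := η) (ρ := ρ) (τ := τ) (by omega)).1 (by rw [e1]; exact hx),
        (Nd.code_child (p := η) (o := ω) (ρ := !ρ) (τ := τ') (by omega)).2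
          (by rw [e2]; exact hx')]
      rw [e1, e2, ← hm, h1]
      cases ρ <;> simp
    · have h3 := val_le τ m
      have h4 := hgt_le_val τ' m
      rw [h1] at h4
      push_cast at h4
      rw [hpow]
      have : (0 : ℝ) < 1 / 2 ^ m := by positivity
      linarith
  · by_cases h0 : hgt τ m = 0
    · left
      have h3 := val_le τ m
      rw [h0] at h3
      rw [hpow]; simpa using h3
    · right
      obtain ⟨τ', h1, h2⟩ := exists_bits m (hgt τ m - 1) (by have := hgt_lt τ m; omega)
        (fun i => decide (i = m))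
      have hx' : exc τ' m := by
        refine ⟨by rw [h2]; simp, ?_, ?_⟩
        · intro j hj; rw [h2]; simp; omega
        · rw [h1]; have := hgt_lt τ m; omega
      refine ⟨τ', ?_, ?_⟩
      · rw [(Nd.code_child (p := ω) (o := η) (ρ := ρ) (τ := τ) (by omega)).2
            (by rw [e1]; exact hx),
          (Nd.code_child (p := η) (o := ω) (ρ := !ρ) (τ := τ') (by omega)).1
            (by rw [e2]; exact hx')]
        rw [e1, e2, ← hm, h1]
        have : hgt τ m - 1 + 1 = hgt τ m := by omega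
        rw [this]
        cases ρ <;> simp
      · have h3 := val_le τ m
        have h4 := hgt_le_val τ' m
        rw [h1] at h4
        have h5 : ((hgt τ m - 1 : ℕ) : ℝ) = (hgt τ m : ℝ) - 1 := by
          rw [Nat.cast_sub (by omega)]; simp
        rw [h5] at h4
        rw [hpow]
        have h6 : ((hgt τ m : ℝ) + 1) / 2 ^ m = ((hgt τ m : ℝ) - 1) / 2 ^ m + 2 * (1 / 2 ^ m) := by
          field_simp; ring
        linarith

/-- points near `ω` -/
noncomputable def pt (R : ℕ) (ρ : Bool) (ω η : Pt) (τ : ℕ → Bool × Bool) : Pt :=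
  ⟨Nd.child ω.nd η.nd ρ (R - ω.nd.birth - 1) τ, ω.lv⟩

theorem pt_injective (R : ℕ) (ρ : Bool) (ω η : Pt) : Function.Injective (pt R ρ ω η) := by
  intro τ τ' h
  simp only [pt, Pt.mk.injEq, Nd.child.injEq] at h
  exact h.1.2.2.2.2

theorem dist_pt (R : ℕ) (ρ : Bool) (ω η : Pt) (τ : ℕ → Bool × Bool) (hω : ω.nd.birth < R)
    (hb : blk ω.lv < R) : dist ω (pt R ρ ω η τ) ≤ (1 / 2) ^ R := by
  refine dist_le_of_agree (p := ω) (q := pt R ρ ω η τ) (n := R) rfl ?_ hb
  intro j hj
  simp only [pt, Nd.sym]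
  rw [if_pos (by omega)]

theorem continuous_pt (R : ℕ) (ρ : Bool) (ω η : Pt) (hω : ω.nd.birth < R) :
    Continuous (pt R ρ ω η) := by
  rw [continuous_iff_continuousAt]
  intro τ
  rw [ContinuousAt, Metric.tendsto_nhds]
  intro ε hε
  obtain ⟨n, hn⟩ := exists_pow_lt_of_lt_one hε (show (1 / 2 : ℝ) < 1 by norm_num)
  set N := n + blk ω.lv + 1 with hN
  have hopen : ∀ᶠ τ' in 𝓝 τ, ∀ j < N, τ' j = τ j := by
    have h1 : ∀ j, ∀ᶠ τ' in 𝓝 τ, (τ' : ℕ → Bool × Bool) j = τ j := by
      intro j
      have : Tendsto (fun τ' : ℕ → Bool × Bool => τ' j) (𝓝 τ) (𝓝 (τ j)) :=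
        (continuous_apply j).tendsto τ
      exact this.eventually (by
        have : {τ j} ∈ 𝓝 (τ j) := by rw [nhds_discrete]; exact Set.mem_singleton _
        exact this)
    have h2 : ∀ᶠ τ' in 𝓝 τ, ∀ j ∈ Finset.range N, (τ' : ℕ → Bool × Bool) j = τ j := by
      rw [Filter.eventually_all_finset]
      intro j _; exact h1 j
    filter_upwards [h2] with τ' h j hj
    exact h j (Finset.mem_range.2 hj)
  filter_upwards [hopen] with τ' hτ'
  have h1 : dist (pt R ρ ω η τ') (pt R ρ ω η τ) ≤ (1 / 2) ^ N := by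
    refine dist_le_of_agree (p := pt R ρ ω η τ') (q := pt R ρ ω η τ) (n := N) rfl ?_ ?_
    · intro j hj
      simp only [pt, Nd.sym]
      split_ifs with h
      · rfl
      · rw [hτ' _ (by omega)]
    · show blk ω.lv < N
      omega
  refine lt_of_le_of_lt h1 (lt_of_le_of_lt ?_ hn)
  exact pow_le_pow_of_le_one (by norm_num) (by norm_num) (by omega)

theorem isClosed_val (c a : ℝ) (hc : 0 ≤ c) (ha : 0 < a) : IsClosed {τ | a ≤ c * val τ} := by
  rcases hc.eq_or_lt with h | h
  · have : {τ | a ≤ c * val τ} = ∅ := by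
      ext τ; simp [← h]; exact ha
    rw [this]; exact isClosed_empty
  · have : {τ | a ≤ c * val τ} = ⋂ m, {τ | a / c ≤ ((hgt τ m : ℝ) + 1) / 2 ^ m} := by
      ext τ
      simp only [Set.mem_ofPred_eq, Set.mem_iInter]
      rw [← le_val_iff, div_le_iff₀ h, mul_comm]
    rw [this]
    apply isClosed_iInter
    intro m
    have hcont : Continuous (fun τ : ℕ → Bool × Bool => hgt τ m) := by
      induction m with
      | zero => simp only [hgt]; exact continuous_const
      | succ m ih =>
        simp only [hgt]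
        have h1 : Continuous (fun τ : ℕ → Bool × Bool => (if (τ m).1 = true then 1 else 0 : ℕ)) := by
          have : (fun τ : ℕ → Bool × Bool => (if (τ m).1 = true then 1 else 0 : ℕ)) =
              (fun x : Bool × Bool => (if x.1 = true then 1 else 0 : ℕ)) ∘ (fun τ => τ m) := rfl
          rw [this]
          exact continuous_of_discreteTopology.comp (continuous_apply m)
        exact (continuous_const.mul ih).add h1
    have h2 : Continuous (fun τ : ℕ → Bool × Bool => ((hgt τ m : ℝ) + 1) / 2 ^ m) := by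
      have h3 : Continuous (fun n : ℕ => ((n : ℝ) + 1) / 2 ^ m) := continuous_of_discreteTopology
      exact h3.comp hcont
    exact isClosed_le continuous_const h2

end Pool.Agent.R247.DP
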